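import Pool.Agent.helper64.PC.SpecX

/-! Row pc:GP1. -/

set_option autoImplicit false

namespace Pool.Agent.PC

open Finset Pool.Agent.PB

theorem GP1 : GP1_stmt := by
  classical
  intro P A Om _ _ _ _ S E hE
  set R : ℕ := 4 * S.m * S.k with hR
  have hR0 : 0 < R := by
    have h1 := S.m1
    have h2 := S.k2
    positivity
  have hkap : 4 * R ≤ S.kap := by
    have h1 := S.kp
    rw [hR]
    linarith
  set T : Finset (Finset P) := univ.filter fun U => U.card ≤ 2 * S.t with hT
  have hTne : T.Nonempty := ⟨∅, mem_filter.2 ⟨mem_univ _, by simp⟩⟩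
  obtain ⟨U, hU, hmax⟩ := T.exists_max_image (fun U => (E.filter fun a => U ⊆ S.g a).card * R ^ U.card) hTne
  have hUc : U.card ≤ 2 * S.t := (mem_filter.1 hU).2
  have h0 : E.card ≤ (E.filter fun a => U ⊆ S.g a).card * R ^ U.card := by
    have h1 := hmax ∅ (mem_filter.2 ⟨mem_univ _, by simp⟩)
    have h2 : (E.filter fun a => (∅ : Finset P) ⊆ S.g a) = E := filter_true_of_mem fun a _ => empty_subset _
    rw [h2] at h1
    simpa using h1
  have hEc : 0 < E.card := card_pos.2 hE
  have hpos : 0 < (E.filter fun a => U ⊆ S.g a).card := by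
    rcases Nat.eq_zero_or_pos (E.filter fun a => U ⊆ S.g a).card with h | h
    · rw [h, zero_mul] at h0
      omega
    · exact h
  obtain ⟨a, ha⟩ := card_pos.1 hpos
  obtain ⟨haE, haU⟩ := mem_filter.1 ha
  have hPU : S.PF U := S.gPF a U haU
  refine ⟨U, hUc, ⟨a, haE, haU⟩, ?_, ?_⟩
  · intro htU
    have h1 := S.pos U hPU hUc
    have h2 : (E.filter fun a => U ⊆ S.g a).card ≤ ct fun a => U ⊆ S.g a := by
      rw [ct_eq]
      exact card_le_card (filter_subset_filter _ (subset_univ _))
    have h3 : E.card * (4 * R) ^ U.card ≤ Fintype.card A * R ^ U.card := by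
      calc E.card * (4 * R) ^ U.card ≤ E.card * S.kap ^ U.card :=
            Nat.mul_le_mul_left _ (Nat.pow_le_pow_left hkap _)
        _ ≤ ((E.filter fun a => U ⊆ S.g a).card * R ^ U.card) * S.kap ^ U.card := Nat.mul_le_mul_right _ h0
        _ = ((E.filter fun a => U ⊆ S.g a).card * S.kap ^ U.card) * R ^ U.card := by ring
        _ ≤ ((ct fun a => U ⊆ S.g a) * S.kap ^ U.card) * R ^ U.card :=
            Nat.mul_le_mul_right _ (Nat.mul_le_mul_right _ h2)
        _ ≤ Fintype.card A * R ^ U.card := Nat.mul_le_mul_right _ h1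
    have h4 : E.card * 4 ^ U.card ≤ Fintype.card A := by
      have h5 : (E.card * 4 ^ U.card) * R ^ U.card ≤ Fintype.card A * R ^ U.card := by
        calc (E.card * 4 ^ U.card) * R ^ U.card = E.card * (4 * R) ^ U.card := by
              rw [mul_pow 4 R]
              ring
          _ ≤ _ := h3
      exact Nat.le_of_mul_le_mul_right h5 (by positivity)
    exact (Nat.mul_le_mul_left _ (Nat.pow_le_pow_right (by norm_num) htU)).trans h4
  · intro Y hd hc
    have h1 := hmax (U ∪ Y) (mem_filter.2 ⟨mem_univ _, by rw [card_union_of_disjoint hd]; exact hc⟩)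
    simp only [card_union_of_disjoint hd, pow_add] at h1
    have h2 : ((E.filter fun a => U ∪ Y ⊆ S.g a).card * R ^ Y.card) * R ^ U.card ≤
        (E.filter fun a => U ⊆ S.g a).card * R ^ U.card := by
      calc ((E.filter fun a => U ∪ Y ⊆ S.g a).card * R ^ Y.card) * R ^ U.card
          = (E.filter fun a => U ∪ Y ⊆ S.g a).card * (R ^ U.card * R ^ Y.card) := by ring
        _ ≤ _ := h1
    exact Nat.le_of_mul_le_mul_right h2 (by positivity)

end Pool.Agent.PC
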