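import Pool.Agent.helper64.PC.Defs
import Pool.Agent.helper64.PB.SpecL

/-!
# Counting and simple facts about sizes
-/

set_option autoImplicit false

namespace Pool.Agent.PC

open Finset Pool.Agent.PB

/-- The number of elements with a property. -/
noncomputable def ct {α : Type} [Fintype α] (p : α → Prop) : ℕ := Nat.card {a : α // p a}

section
variable {α : Type} [Fintype α]

theorem ct_eq (p : α → Prop) [DecidablePred p] : ct p = (univ.filter p).card := by
  unfold ct
  rw [Nat.card_eq_fintype_card, Fintype.card_subtype]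

theorem ct_mono {p q : α → Prop} (h : ∀ a, p a → q a) : ct p ≤ ct q := by
  classical
  rw [ct_eq, ct_eq]
  exact card_le_card fun a ha => mem_filter.2 ⟨mem_univ _, h a (mem_filter.1 ha).2⟩

theorem ct_congr {p q : α → Prop} (h : ∀ a, p a ↔ q a) : ct p = ct q :=
  le_antisymm (ct_mono fun a => (h a).1) (ct_mono fun a => (h a).2)

theorem ct_or (p q : α → Prop) : ct (fun a => p a ∨ q a) ≤ ct p + ct q := by
  classical
  rw [ct_eq, ct_eq, ct_eq, filter_or]
  exact card_union_le _ _

theorem ct_le (p : α → Prop) : ct p ≤ Fintype.card α := by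
  classical
  rw [ct_eq]
  exact card_le_univ _

theorem ct_false {p : α → Prop} (h : ∀ a, ¬ p a) : ct p = 0 := by
  classical
  rw [ct_eq, card_eq_zero, filter_eq_empty_iff]
  exact fun a _ => h a

theorem ct_true {p : α → Prop} (h : ∀ a, p a) : ct p = Fintype.card α := by
  classical
  rw [ct_eq, filter_true_of_mem fun a _ => h a]
  rfl

theorem ct_pos {p : α → Prop} : 0 < ct p ↔ ∃ a, p a := by
  classical
  rw [ct_eq, card_pos]
  constructor
  · rintro ⟨a, ha⟩
    exact ⟨a, (mem_filter.1 ha).2⟩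
  · rintro ⟨a, ha⟩
    exact ⟨a, mem_filter.2 ⟨mem_univ _, ha⟩⟩

theorem ct_mem (s : Finset α) : ct (fun a => a ∈ s) = s.card := by
  classical
  rw [ct_eq]
  congr 1
  ext a
  simp

theorem ct_not (p : α → Prop) : ct p + ct (fun a => ¬ p a) = Fintype.card α := by
  classical
  rw [ct_eq, ct_eq]
  exact card_filter_add_card_filter_not p

end

/-! ### Sizes -/

theorem Prog.mono_basis {G G' : Set Gate} (h : G ⊆ G') {n : ℕ} {l : List (BF n)} (hl : Prog G n l) : Prog G' n l := by
  induction hl with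
  | nil => exact Prog.nil
  | step l g a _ hg ha ih => exact Prog.step l g a ih (h hg) ha

theorem Size.mono_basis {G G' : Set Gate} (h : G ⊆ G') {n : ℕ} {f : BF n} {s : ℕ} (hf : Size G f s) : Size G' f s := by
  obtain ⟨l, h1, h2, h3⟩ := hf
  exact ⟨l, Prog.mono_basis h h1, h2, h3⟩

theorem Size.mono_size {G : Set Gate} {n : ℕ} {f : BF n} {s s' : ℕ} (h : s ≤ s') (hf : Size G f s) : Size G f s' := by
  obtain ⟨l, h1, h2, h3⟩ := hf
  exact ⟨l, h1, h2.trans h, h3⟩

theorem upTo_subset (G : Set Gate) (r : ℕ) : upTo G r ⊆ G := fun _ h => h.1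

theorem upTo_mono {G : Set Gate} {r r' : ℕ} (h : r ≤ r') : upTo G r ⊆ upTo G r' := fun _ hg => ⟨hg.1, hg.2.trans h⟩

theorem upTo_mono_left {G G' : Set Gate} (h : G ⊆ G') (r : ℕ) : upTo G r ⊆ upTo G' r := fun _ hg => ⟨h hg.1, hg.2⟩

theorem gConst_mem_monG (b : Bool) (r : ℕ) : gConst b ∈ upTo monG r :=
  ⟨fun _ _ _ h => h, Nat.zero_le _⟩

end Pool.Agent.PC
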