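import Pool.Agent.helper64.PC.SpecV

/-!
# pc:* rows, block E: bounded fan-in in the cases (T) and (E), the questions, languages
-/

set_option autoImplicit false

namespace Pool.Agent.PC

open Pool.Agent.PB

/-- The functions of at most 3 variables in `[G]`, as gates. -/
def ter (G : Set Gate) : Set Gate := {g | g.1 ≤ 3 ∧ InCl G g.2}

/-- CPT (short). Induction on the program: `b` = the largest number of inputs of a gate in it. -/
def CPT_stmt : Prop := ∀ (G : Set Gate) (n : ℕ) (f : BF n) (s : ℕ), Size G f s → ∃ b, Size (upTo G b) f s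

/-- FNB (short). There are finitely many gates with at most `b` inputs (the image of a finite sigma type). -/
def FNB_stmt : Prop := ∀ b : ℕ, {g : Gate | g.1 ≤ b}.Finite

/-- FGC (medium). All gates `Conj`. From PB.PRP, CLP. Copy of TCO (`Pool/Agent/helper89/PB/TCO.lean`), which builds `f ∈ [G]`
from functions of at most 2 variables of `[G]`: a constant function is the unary function `f(y,..,y)` applied to `x_0`; a
conjunction of `≥ 2` variables uses its minor `fAnd`. So `f ∈ [ter G]`. -/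
def FGC_stmt : Prop :=
  ∀ G : Set Gate, (∀ g ∈ G, Conj g.2) → ∀ n, 1 ≤ n → ∀ f : BF n, InCl G f → InCl (ter G) f

/-- FGA (medium). All gates `Affine`. From PB.PRP, CLP. Copy of TAF (`Pool/Agent/helper85/PB/TAF.lean`), which builds
`f ∈ [G]` from functions of at most 3 variables of `[G]` (`x + y + z`, the binary minors, the unary functions). -/
def FGA_stmt : Prop :=
  ∀ G : Set Gate, (∀ g ∈ G, Affine g.2) → ∀ n, 1 ≤ n → ∀ f : BF n, InCl G f → InCl (ter G) f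

/-- FGE (medium). Case (E). From PB.CSE, RTP, RT0, EID, ET0, EAL, ESD, DNF, DUA, PRP, CLP. All functions have some size over
`std` (DNF). The witnesses of CSE are functions of at most 3 variables of `[G]`, so they are in `[ter G]` (a gate of `ter G`,
one step; CLP). Let `f ∈ [G]`, `n ≥ 1`. (1) all gates `Star`, `fM`: `f` is `Star` (PRP). If `f(1) = 1` then `f ≤ x_i` and RTP for
`ter G`, `t = x_i`. If `f(1) = 0` then `f(0) = 0` too (`Star`), the function `f(y)` of one variable is the constant 0, in `ter G`;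
RT0 for `ter G` (`f ≤ x_i` for some `i`; if `f = 0` any `i`). (1') the same for `dualB G` and `dual f` (`ter (dualB G)` and
`dualB (ter G)` have the same gates, by DUA). (2) self-dual, `fD`: if `f(0) = 0` ESD for `ter G`; if `f(0) = 1` then `f(1) = 0`, the
function `f(y)` of one variable is `fNot`, in `ter G`, and `not f ∈ [ter G]` by ESD; compose. (3) EID; (4) ET0; (4') ET0 for
`dualB G`; (5) EAL, all for `ter G`. -/
def FGE_stmt : Prop :=
  ∀ G : Set Gate, ¬ Trivial G → ¬ Weak G → ∀ n, 1 ≤ n → ∀ f : BF n, InCl G f → InCl (ter G) f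

/-- TER (short-medium). From PB.PRP, DUA, CLP. The functions of `ter G` are in `[G]`, so by PRP `ter G` inherits `Affine`, `Conj`,
`Disj`, `Mono`, `Inter k`, `Star` from `G`; conversely, by the hypothesis every gate `g` of `G` is in `[ter G]` (if it has no
inputs it is in `ter G`), so `G` inherits them from `ter G`. The same for the duals: `dualB (ter G) = ter (dualB G)`. -/
def TER_stmt : Prop :=
  (∀ G : Set Gate, dualB (ter G) = ter (dualB G)) ∧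
  ∀ G : Set Gate, (∀ n, 1 ≤ n → ∀ f : BF n, InCl G f → InCl (ter G) f) →
    (Trivial (ter G) ↔ Trivial G) ∧ (Weak (ter G) ↔ Weak G)

/-- BFX (short). From CPT, FNB and PB.TRB. `ter G` is finite; every gate of it is in `[upTo G b]` for some `b` (CPT), for a
common `b` (`Size.mono_basis`, `upTo_mono`); TRB for `upTo G b` and `ter G`. -/
def BFX_stmt : Prop :=
  ∀ G : Set Gate, ∃ b c : ℕ, ∀ (n : ℕ) (f : BF n) (s : ℕ), Size (ter G) f s → Size (upTo G b) f (c * s)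

/-- BFT (short-medium). From FGC, FGA, BFX and PB.TTH, PRP, DUA. If all gates are `Conj` or all are `Affine`: `ter G` is `Trivial`
(PRP), TTH for `ter G` and BFX. If all are `Disj`: `dualB G` is `Conj`, so `Size (upTo (dualB G) c) (dual f) (c n)`, and
`dualB (upTo G c) = upTo (dualB G) c` with DUA. -/
def BFT_stmt : Prop :=
  ∀ G : Set Gate, Trivial G → ∃ c : ℕ, ∀ n, 1 ≤ n → ∀ f : BF n, InCl G f → Size (upTo G c) f (c * n)

/-- BFE (short). From FGE, TER, BFX and PB.ETH: ETH for `ter G`. -/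
def BFE_stmt : Prop :=
  ∀ G : Set Gate, ¬ Trivial G → ¬ Weak G →
    ∃ c : ℕ, ∀ n, 1 ≤ n → ∀ f : BF n, InCl G f → ∀ s, Size std f s → Size (upTo G c) f (c * (s + n))

/-- TRP (short-medium). From PB.SUB. Copy of TRB (`Pool/Agent/helper71/PB/TRB.lean`): every gate of a program over `upTo G r` is
replaced by a circuit over `std` with at most `r^d + d` gates (`g.1 ≤ r`). -/
def TRP_stmt : Prop :=
  ∀ (G : Set Gate) (d : ℕ), (∀ g ∈ G, Size std g.2 (g.1 ^ d + d)) →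
    ∀ (r n : ℕ) (f : BF n) (s : ℕ), Size (upTo G r) f s → Size std f (s * (r ^ d + d))

/-- PLY (short-medium). Polynomial bounds. For the constants `c, d, e` and `n' ≤ n + 2`, `m n' ≤ n'^e + e`:
`(n'^c + c) ((m n' + c)^d + d) + 2 ≤ n^D + D` for suitable `D` (for `n ≥ 2` estimate by powers of `n`, for `n ≤ 1` use the
summand `D`). -/
def PLY_stmt : Prop :=
  ∀ c d e : ℕ, ∃ D : ℕ, ∀ n m : ℕ, m ≤ (n + 2) ^ e + e →
    ((n + 2) ^ c + c) * ((m + c) ^ d + d) + 2 ≤ n ^ D + D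

/-- FWM (short). From BFE and PB.POL. `upTo G c ⊆ upTo G (m n + c')` for `c ≤ c'`. -/
def FWM_stmt : Prop :=
  ∀ (G : Set Gate) (m : ℕ → ℕ) (A : Lang), ¬ Trivial G → ¬ Weak G → Slices G A → InPPoly A → PolyF G m A

/-- BCM (short-medium). From TRP, PLY and PB.RST. Copy of BCK (`Pool/Agent/helper74/PB/BCK.lean`): a circuit over
`upTo G (m (n+2) + c)` for the slice `n + 2` of `ext Φ A` gives one over `std` (TRP), and `A n` is a restriction (RST). -/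
def BCM_stmt : Prop :=
  ∀ (G : Set Gate) (m : ℕ → ℕ) (A : Lang), PolyGates G → (∃ d : ℕ, ∀ n, m n ≤ n ^ d + d) →
    (PolyF G m (ext (fun _ f => eA f) A) → InPPoly A) ∧ (PolyF G m (ext (fun _ f => eO f) A) → InPPoly A) ∧
    (PolyF G m (ext (fun _ f => eS f) A) → InPPoly A)

/-- QEM (short). From FWM, BCM and PB.CLA, NPA. Copy of QEE (`Pool/Agent/helper45/PB/QEE.lean`). -/
def QEM_stmt : Prop :=
  ∀ (G : Set Gate) (m : ℕ → ℕ), PolyGates G → (∃ d : ℕ, ∀ n, m n ≤ n ^ d + d) → ¬ Trivial G → ¬ Weak G →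
    (∃ g ∈ G, ¬ SelfDual g.2) →
    ((∀ A : Lang, Slices G A → InNPPoly A → PolyF G m A) ↔ ∀ A : Lang, InNPPoly A → InPPoly A)

/-- QSM (short). From FWM, BCM and PB.CLB, NPS, NPC, PRP. Copy of QSS (`Pool/Agent/helper78/PB/QSS.lean`). -/
def QSM_stmt : Prop :=
  ∀ (G : Set Gate) (m : ℕ → ℕ), PolyGates G → (∃ d : ℕ, ∀ n, m n ≤ n ^ d + d) → ¬ Trivial G → ¬ Weak G →
    (∀ g ∈ G, SelfDual g.2) →
    ((∀ A : Lang, Slices G A → InNPPoly A → PolyF G m A) ↔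
      ∀ A : Lang, InNPPoly A → InNPPoly (Pool.Agent.PB.compl A) → InPPoly A)

/-- QNM (medium). Real numbers. `lg` = logarithm to the base 2. For large `n`: `e = ⌊lg(n/(c m)) / 18⌋` (`m = m n`),
`r + 1 = ⌊lg(n/c) / (6e)⌋`. Then `2^(18e) ≤ n/(c m) < 2^(18(e+1))` and `2^(6e(r+1)) ≤ n/c < 2^(6e(r+2))`; `e → ∞` because
`n/m ≥ (lg n)^19`; `r + 1 ≥ 3` because `n/c ≥ 2^(18e)`. `m ≤ n/(c 2^(18e)) < 2^(6e(r+2) - 18e) = 2^(6e(r-1))`.
`32 e r ≤ (32/6) lg n`, and `2^(e+1) > (n/(c m))^(1/18) ≥ ((lg n)^19/c)^(1/18)`, so `32 e r ≤ 2^e` for large `n` (`19/18 > 1`).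
If `2^(2^e) ≤ s + 2`: `2^e ≥ (n/(c m))^(1/18)/2 ≥ (n/m)^(1/19) + 1` for large `n` (`n/m → ∞`), so
`s ≥ 2 * 2^((n/m)^(1/19)) - 2 ≥ 2^((n/m)^(1/19))`. -/
def QNM_stmt : Prop :=
  ∀ (c : ℕ) (m : ℕ → ℕ), 1 ≤ c →
    (∃ n₁ : ℕ, ∀ n, n₁ ≤ n → 1 ≤ m n ∧ (m n : ℝ) * Real.logb 2 n ^ 19 ≤ n) →
    ∃ n₀ : ℕ, 1 ≤ n₀ ∧ ∀ n, n₀ ≤ n → ∃ e r : ℕ, 6 ≤ e ∧ 1 ≤ r ∧ 32 * e * r ≤ 2 ^ e ∧
      c * 2 ^ (6 * e * (r + 1)) ≤ n ∧ m n ≤ 2 ^ (6 * e * (r - 1)) ∧
      ∀ s : ℕ, 2 ^ (2 ^ e) ≤ s + 2 → (2 : ℝ) ^ (((n : ℝ) / m n) ^ (1 / 19 : ℝ)) ≤ s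

/-- QWM (medium). From BSM, QNM and PB.SUB, POL. Copy of QWL (`Pool/Agent/helper8/PB/QWL.lean`). Let `c` be the constant of
`GapM` (`c ≥ 1`, otherwise replace it by `c + 1`), `n₀` that of QNM. For `n ≥ n₀` let `e, r` be as in QNM, `h` the function of BSM
(`N = 2^(6e(r+1))` variables, `c N ≤ n`), `f` (of `m' ≤ c N ≤ n` variables) the function of `GapM` for it, and
`A_n(z) = f(z_0, ..., z_(m'-1))`; for smaller `n ≥ 1` let `A_n(z) = z_0`. `A_n ∈ [G]` (SUB). `L(A_n) ≤ c (C (N+2)^4 + N)`,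
polynomial in `n`. A circuit over `upTo G (m n)` for `A_n` with `s` gates gives one for `f` (variables beyond `m'` replaced by the
first one; SUB), so one for `h` over `upTo monG (m n) ⊆ upTo monG (2^(6e(r-1)))` with `s + 2` gates, so `2^(2^e) ≤ s + 2`: QNM. -/
def QWM_stmt : Prop :=
  ∀ G : Set Gate, GapM G → ∀ m : ℕ → ℕ,
    (∃ n₁ : ℕ, ∀ n, n₁ ≤ n → 1 ≤ m n ∧ (m n : ℝ) * Real.logb 2 n ^ 19 ≤ n) →
    ∃ A : Lang, InPPoly A ∧ Slices G A ∧ ∃ n₀ : ℕ, ∀ n, n₀ ≤ n → ∀ s : ℕ, Size (upTo G (m n)) (A n) s →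
      (2 : ℝ) ^ (((n : ℝ) / m n) ^ (1 / 19 : ℝ)) ≤ s

/-- GRL (short-medium). Real numbers. Let `m' n = m n + Nat.log 2 n + 1`. `m' n (lg n)^19 ≤ n/lg n + (lg n + 1) (lg n)^19 ≤ n`
for large `n`. `n / m' n ≥ (lg n)^20 / 2` for large `n`, so `(n/m' n)^(1/19) ≥ (lg n)^(20/19) / 2 ≥ (c + 2) lg n`, and
`n^c + c < 2^((c+2) lg n)`. -/
def GRL_stmt : Prop :=
  ∀ m : ℕ → ℕ, (∃ n₁ : ℕ, ∀ n, n₁ ≤ n → (m n : ℝ) * Real.logb 2 n ^ 20 ≤ n) →
    (∃ n₂ : ℕ, ∀ n, n₂ ≤ n → 1 ≤ m n + Nat.log 2 n + 1 ∧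
      ((m n + Nat.log 2 n + 1 : ℕ) : ℝ) * Real.logb 2 n ^ 19 ≤ n) ∧
    ∀ c : ℕ, ∃ n₃ : ℕ, ∀ n, n₃ ≤ n → c ≤ Nat.log 2 n + 1 ∧
      ((n ^ c + c : ℕ) : ℝ) < (2 : ℝ) ^ (((n : ℝ) / ((m n + Nat.log 2 n + 1 : ℕ) : ℝ)) ^ (1 / 19 : ℝ))

/-- NQW (short). From QWM, GRL and PB.PNP. The language `A` of QWM for `m' n = m n + Nat.log 2 n + 1` has slices in `[G]` and is in
P/Poly, so in NP/Poly. If it had `PolyF G m` with the constant `c`, then for large `n` (`c ≤ Nat.log 2 n + 1`,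
`upTo G (m n + c) ⊆ upTo G (m' n)`) QWM would give `2^((n/m' n)^(1/19)) ≤ n^c + c`, contradiction to GRL. -/
def NQW_stmt : Prop :=
  ∀ G : Set Gate, GapM G → ∀ m : ℕ → ℕ, (∃ n₁ : ℕ, ∀ n, n₁ ≤ n → (m n : ℝ) * Real.logb 2 n ^ 20 ≤ n) →
    ¬ ∀ A : Lang, Slices G A → InNPPoly A → PolyF G m A

end Pool.Agent.PC
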