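import Pool.Agent.helper74.PB.BCK
import Pool.Agent.helper64.PC.SpecE

/-! Row pc:BCM. -/

set_option autoImplicit false

namespace Pool.Agent.PC

open Pool.Agent.PB

theorem BCM_aux (hTRP : TRP_stmt) (hPLY : PLY_stmt) (hRST : RST_stmt) (G : Set Gate) (m : ℕ → ℕ) (A : Lang)
    (hG : PolyGates G) (hm : ∃ d : ℕ, ∀ n, m n ≤ n ^ d + d) (Φ : ∀ n, BF n → BF (n + 2)) (a b : Bool)
    (hΦ : ∀ n (f : BF n) (x : Fin n → Bool), Φ n f (fun i => BCK_phi n a b i x) = f x)
    (h : PolyF G m (ext Φ A)) : InPPoly A := by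
  obtain ⟨c, hc⟩ := h
  obtain ⟨d, hd⟩ := hG
  obtain ⟨e, he⟩ := hm
  obtain ⟨D, hD⟩ := hPLY c d e
  refine ⟨D, fun n => ?_⟩
  have h1 : Size (upTo G (m (n + 2) + c)) (Φ n (A n)) ((n + 2) ^ c + c) := hc (n + 2) (by omega)
  have h2 := hTRP G d hd _ _ _ _ h1
  have h3 := (hRST (n + 2) n (Φ n (A n)) _ (BCK_phi n a b) (BCK_phi_ok n a b)).2 h2
  have h4 : (fun x => Φ n (A n) fun i => BCK_phi n a b i x) = A n := by
    funext x
    exact hΦ n (A n) x
  rw [h4] at h3
  exact Size.mono_size (hD n (m (n + 2)) (he (n + 2))) h3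

theorem BCM (hTRP : TRP_stmt) (hPLY : PLY_stmt) (hRST : RST_stmt) : BCM_stmt := by
  intro G m A hG hm
  refine ⟨fun h => ?_, fun h => ?_, fun h => ?_⟩
  · refine BCM_aux hTRP hPLY hRST G m A hG hm _ true false (fun n f x => ?_) h
    have hne : ¬ ∀ i, BCK_phi n true false i x = true := fun hh => by
      have := hh (Fin.natAdd n 1)
      rw [BCK_phi_one] at this
      exact absurd this (by decide)
    simp only [eA, BCK_phi_zero, BCK_phi_one, BCK_phi_left, hne, decide_false]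
    simp
  · refine BCM_aux hTRP hPLY hRST G m A hG hm _ false true (fun n f x => ?_) h
    have hne : ∃ i, BCK_phi n false true i x = true := ⟨Fin.natAdd n 1, BCK_phi_one n false true x⟩
    simp only [eO, BCK_phi_zero, BCK_phi_one, BCK_phi_left, hne, decide_true]
    simp
  · refine BCM_aux hTRP hPLY hRST G m A hG hm _ true false (fun n f x => ?_) h
    simp only [eS, BCK_phi_zero, BCK_phi_one, BCK_phi_left]
    simp

end Pool.Agent.PC
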