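import Pool.Agent.helper64.PC.SpecR

/-! Row pc:CRC. -/

set_option autoImplicit false

namespace Pool.Agent.PC

open Finset Pool.Agent.PB

theorem CRC : CRC_stmt := by
  intro P A Om _ _ _ _ S Φ T β D hDT hT hDn hcl τ
  -- the smallest element of `T` which is at least `τ`
  have hkey : τ ≤ β ∨ (∀ B, D B < τ) ∨ ∃ τ' ∈ T, τ ≤ τ' ∧ ∀ B, (τ ≤ D B ↔ τ' ≤ D B) := by
    by_cases h1 : τ ≤ β
    · exact Or.inl h1
    · right
      push Not at h1
      by_cases h2 : ∃ τ' ∈ T, τ ≤ τ'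
      · right
        obtain ⟨τ₁, hτ₁, hle₁⟩ := h2
        have hne : (T.filter fun x => τ ≤ x).Nonempty := ⟨τ₁, mem_filter.2 ⟨hτ₁, hle₁⟩⟩
        obtain ⟨τ', hτ', hmin⟩ := (T.filter fun x => τ ≤ x).exists_min_image id hne
        obtain ⟨h3, h4⟩ := mem_filter.1 hτ'
        refine ⟨τ', h3, h4, fun B => ⟨fun h5 => ?_, fun h5 => h4.trans h5⟩⟩
        rcases hDT B with h6 | h6
        · rw [h6] at h5
          exact absurd h5 (not_le.2 h1)
        · exact hmin _ (mem_filter.2 ⟨h6, h5⟩)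
      · left
        push Not at h2
        intro B
        rcases hDT B with h6 | h6
        · rw [h6]
          exact h1
        · exact h2 _ h6
  have hβ : ∀ B, β ≤ D B := by
    intro B
    rcases hDT B with h6 | h6
    · exact h6.ge
    · exact hT _ h6
  rcases hkey with h1 | h1 | ⟨τ', hτ', hle, hiff⟩
  · refine ⟨fun B hB => ⟨(mem_lev.1 hB).1, (mem_lev.1 hB).2.1⟩, ?_, ?_⟩
    · intro B _ B' _ h2 h3
      exact mem_lev.2 ⟨h2, h3, h1.trans (hβ B')⟩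
    · intro U F i hU hF hB _
      obtain ⟨B₀, hB₀⟩ := hF
      exact mem_lev.2 ⟨S.sub U (U ∪ B₀) subset_union_left (mem_lev.1 (hB B₀ hB₀).2.2).1, hU, h1.trans (hβ U)⟩
  · have h2 : ∀ B, B ∉ lev S.PF S.t D τ := fun B hB => absurd (mem_lev.1 hB).2.2 (not_le.2 (h1 B))
    refine ⟨fun B hB => absurd hB (h2 B), fun B hB => absurd hB (h2 B), ?_⟩
    intro U F i _ hF hB _
    obtain ⟨B₀, hB₀⟩ := hF
    exact absurd (hB B₀ hB₀).2.2 (h2 _)
  · refine ⟨fun B hB => ⟨(mem_lev.1 hB).1, (mem_lev.1 hB).2.1⟩, ?_, ?_⟩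
    · intro B hB B' hBB' h2 h3
      refine mem_lev.2 ⟨h2, h3, (hiff B').2 (hcl τ' hτ' B' h2 h3 ?_)⟩
      rw [ct_false, zero_mul]
      · exact Nat.zero_le _
      · rintro w ⟨h4, _, h5⟩
        exact h5 ⟨B, hBB'.trans h4, (hiff B).1 (mem_lev.1 hB).2.2⟩
    · intro U F i hU hF hB hsp
      obtain ⟨B₀, hB₀⟩ := hF
      have hm0 := mem_lev.1 (hB B₀ hB₀).2.2
      have hi : i ≤ 2 * S.t := by
        rw [← (hB B₀ hB₀).1]
        exact (card_le_card subset_union_right).trans hm0.2.1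
      have hPF : ∀ B ∈ F, S.PF B ∧ B.card = i := fun B hBF =>
        ⟨S.sub B (U ∪ B) subset_union_right (mem_lev.1 (hB B hBF).2.2).1, (hB B hBF).1⟩
      have hh := S.hitF F i hi ⟨B₀, hB₀⟩ hPF hsp
      have hUP : S.PF U := S.sub U (U ∪ B₀) subset_union_left hm0.1
      refine mem_lev.2 ⟨hUP, hU, (hiff U).2 (hcl τ' hτ' U hUP hU ?_)⟩
      refine le_trans (Nat.mul_le_mul_right _ ?_) hh
      refine ct_mono fun w hw => ?_
      rintro ⟨B, hBF, hBw⟩
      exact hw.2.2 ⟨U ∪ B, union_subset hw.1 hBw, (hiff _).1 (mem_lev.1 (hB B hBF).2.2).2.2⟩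

end Pool.Agent.PC
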