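import Pool.Agent.helper64.PC.SpecR

/-! Row pc:RCE (and the special case CLE is in `Pool/Agent/helper64/PC/CLE.lean`). -/

set_option autoImplicit false

namespace Pool.Agent.PC

open Finset Pool.Agent.PB

theorem RCE : RCE_stmt := by
  classical
  intro P Om _ _ _ PF nu t M Φ D₀ hD₀
  set S : Finset (Finset (Finset P)) := univ.filter fun D =>
    D₀ ⊆ D ∧ (∀ B ∈ D, PF B ∧ B.card ≤ 2 * t) ∧
      ct (fun w => (∃ B ∈ D, B ⊆ nu w) ∧ ¬ Φ w ∧ ¬ ∃ B ∈ D₀, B ⊆ nu w) * M ≤ (D \ D₀).card * Fintype.card Om with hS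
  have hne : S.Nonempty := by
    refine ⟨D₀, mem_filter.2 ⟨mem_univ _, Subset.refl _, hD₀, ?_⟩⟩
    rw [ct_false (fun w hw => hw.2.2 hw.1), zero_mul]
    exact Nat.zero_le _
  obtain ⟨D, hD, hmax⟩ := S.exists_max_image (fun D => D.card) hne
  obtain ⟨-, h1, h2, h3⟩ := mem_filter.1 hD
  refine ⟨D, h1, h2, h3, fun A hA hAc hle => ?_⟩
  by_contra hAD
  have hA0 : A ∉ D₀ := fun h => hAD (h1 h)
  have h4 : insert A D ∈ S := by
    refine mem_filter.2 ⟨mem_univ _, h1.trans (subset_insert _ _), ?_, ?_⟩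
    · intro B hB
      rcases mem_insert.1 hB with rfl | h
      · exact ⟨hA, hAc⟩
      · exact h2 B h
    · have h5 : ct (fun w => (∃ B ∈ insert A D, B ⊆ nu w) ∧ ¬ Φ w ∧ ¬ ∃ B ∈ D₀, B ⊆ nu w) ≤
          ct (fun w => (∃ B ∈ D, B ⊆ nu w) ∧ ¬ Φ w ∧ ¬ ∃ B ∈ D₀, B ⊆ nu w) +
          ct (fun w => A ⊆ nu w ∧ ¬ Φ w ∧ ¬ ∃ B ∈ D, B ⊆ nu w) := by
        refine (ct_mono fun w hw => ?_).trans (ct_or _ _)
        obtain ⟨⟨B, hB, hBw⟩, hΦ, h0⟩ := hw
        by_cases hDw : ∃ B ∈ D, B ⊆ nu w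
        · exact Or.inl ⟨hDw, hΦ, h0⟩
        · rcases mem_insert.1 hB with rfl | h
          · exact Or.inr ⟨hBw, hΦ, hDw⟩
          · exact absurd ⟨B, h, hBw⟩ hDw
      have h6 : (insert A D \ D₀).card = (D \ D₀).card + 1 := by
        rw [insert_sdiff_of_notMem _ hA0, card_insert_of_notMem]
        intro h
        exact hAD (mem_sdiff.1 h).1
      rw [h6, add_mul, one_mul]
      calc _ ≤ _ := Nat.mul_le_mul_right M h5
        _ = _ := add_mul _ _ _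
        _ ≤ _ := Nat.add_le_add h3 hle
  have h7 := hmax _ h4
  rw [card_insert_of_notMem hAD] at h7
  omega

end Pool.Agent.PC
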