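import Pool.Agent.helper64.PC.DefsR
import Pool.Agent.helper64.PC.SpecE

/-!
# pc:* rows, block R: the same lower bound for gates `ℝ^m → ℝ`

A wire is now approximated by a level function `F : Finset P → ℝ`; for every `τ` the sets of level at least `τ` form a closed
family. Compare with the rows of block X: `lev F τ` takes the role of the family `C`.
-/

set_option autoImplicit false

namespace Pool.Agent.PC

open Finset Pool.Agent.PB

section
variable {P : Type} [Fintype P] [DecidableEq P]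

open Classical in
/-- The small `PF` sets of level at least `τ`. -/
noncomputable def lev (PF : Finset P → Prop) (t : ℕ) (F : Finset P → ℝ) (τ : ℝ) : Finset (Finset P) :=
  univ.filter fun B => PF B ∧ B.card ≤ 2 * t ∧ τ ≤ F B

/-- The value of the level function `F` on the input `x`: the largest level of a `PF` set with at most `t` elements in `x`. -/
noncomputable def hat (PF : Finset P → Prop) (t : ℕ) (F : Finset P → ℝ) (x : Finset P) : ℝ :=
  sSup {y : ℝ | ∃ B, PF B ∧ B.card ≤ t ∧ B ⊆ x ∧ F B = y}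

theorem mem_lev {PF : Finset P → Prop} {t : ℕ} {F : Finset P → ℝ} {τ : ℝ} {B : Finset P} :
    B ∈ lev PF t F τ ↔ PF B ∧ B.card ≤ 2 * t ∧ τ ≤ F B := by
  classical
  unfold lev
  simp

theorem hat_finite (PF : Finset P → Prop) (t : ℕ) (F : Finset P → ℝ) (x : Finset P) :
    {y : ℝ | ∃ B, PF B ∧ B.card ≤ t ∧ B ⊆ x ∧ F B = y}.Finite := by
  refine Set.Finite.subset (Set.finite_range F) ?_
  rintro y ⟨B, _, _, _, h⟩
  exact ⟨B, h⟩

/-- every small `PF` set in `x` has level at most the value -/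
theorem le_hat {PF : Finset P → Prop} {t : ℕ} {F : Finset P → ℝ} {x B : Finset P} (h1 : PF B) (h2 : B.card ≤ t)
    (h3 : B ⊆ x) : F B ≤ hat PF t F x :=
  le_csSup (hat_finite PF t F x).bddAbove ⟨B, h1, h2, h3, rfl⟩

/-- the value is attained -/
theorem exists_hat {PF : Finset P → Prop} (h0 : PF ∅) (t : ℕ) (F : Finset P → ℝ) (x : Finset P) :
    ∃ B, PF B ∧ B.card ≤ t ∧ B ⊆ x ∧ F B = hat PF t F x := by
  have h1 : {y : ℝ | ∃ B, PF B ∧ B.card ≤ t ∧ B ⊆ x ∧ F B = y}.Nonempty :=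
    ⟨F ∅, ∅, h0, by simp, by simp, rfl⟩
  exact h1.csSup_mem (hat_finite PF t F x)

end

/-- RCE (short-medium). CLE relative to `D₀`: choose `D ⊇ D₀` of maximal cardinality with the first two properties (`D₀` has
them: the set is empty). If `A ∉ D` violates the third one then `insert A D` has the first two: the new `w` counted contain
`A`, satisfy `¬ Φ w` and contain no `B ∈ D`. -/
def RCE_stmt : Prop :=
  ∀ (P Om : Type) [Fintype P] [DecidableEq P] [Fintype Om] (PF : Finset P → Prop) (nu : Om → Finset P) (t M : ℕ)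
    (Φ : Om → Prop) (D₀ : Finset (Finset P)), (∀ B ∈ D₀, PF B ∧ B.card ≤ 2 * t) →
    ∃ D : Finset (Finset P), D₀ ⊆ D ∧ (∀ B ∈ D, PF B ∧ B.card ≤ 2 * t) ∧
      ct (fun w => (∃ B ∈ D, B ⊆ nu w) ∧ ¬ Φ w ∧ ¬ ∃ B ∈ D₀, B ⊆ nu w) * M ≤ (D \ D₀).card * Fintype.card Om ∧
      ∀ A : Finset P, PF A → A.card ≤ 2 * t →
        ct (fun w => A ⊆ nu w ∧ ¬ Φ w ∧ ¬ ∃ B ∈ D, B ⊆ nu w) * M ≤ Fintype.card Om → A ∈ D

/-- CLR (medium). From RCE, CDB. Induction over the finite set `T`, adding SMALLER elements (`Finset.induction_on_min`), of: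
there is `D : Finset P → ℝ` with `D B = β` or `D B ∈ T`; `D B = β` if `B` is not `PF` or has more than `2t` elements;
`ct (∃ B, B ⊆ nu w, Φ w < D B) * M ≤ #{B : D B ≠ β} * #Om`; and the closure property for all `τ ∈ T`. `T = ∅`: `D = β`, no `w` is
counted as `β ≤ Φ w`. Step: `τ < ` all elements of `T` (if `τ = β`: keep `D`; let `β < τ`). `D₀ = {B : D B ≠ β}` (all have level
`> τ`), RCE for `Φ w := (τ ≤ Φ w)`: `D₁ ⊇ D₀`; the new level function is `D` on `D₀`, `τ` on `D₁ \ D₀`, `β` elsewhere. New `w`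
counted (there is `B ∈ D₁ \ D₀`, `B ⊆ nu w`, `Φ w < τ`, and `w` was not counted before): no `B ∈ D₀` is in `nu w` (it would have
`D B > τ > Φ w`), so they are counted in RCE. Closure at `τ`: `{B : τ ≤ new D B} = D₁`, RCE; at the old levels: nothing changed.
At the end `#{B : D B ≠ β} ≤ (#P + 1)^(2t)` (CDB). -/
def CLR_stmt : Prop :=
  ∀ (P Om : Type) [Fintype P] [DecidableEq P] [Fintype Om] (PF : Finset P → Prop) (nu : Om → Finset P) (t M : ℕ)
    (Φ : Om → ℝ) (T : Finset ℝ) (β : ℝ), (∀ w, β ≤ Φ w) → (∀ τ ∈ T, β ≤ τ) →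
    ∃ D : Finset P → ℝ, (∀ B, D B = β ∨ D B ∈ T) ∧ (∀ B, ¬ (PF B ∧ B.card ≤ 2 * t) → D B = β) ∧
      ct (fun w => ∃ B, B ⊆ nu w ∧ Φ w < D B) * M ≤ (Fintype.card P + 1) ^ (2 * t) * Fintype.card Om ∧
      ∀ τ ∈ T, ∀ A : Finset P, PF A → A.card ≤ 2 * t →
        ct (fun w => A ⊆ nu w ∧ Φ w < τ ∧ ¬ ∃ B, B ⊆ nu w ∧ τ ≤ D B) * M ≤ Fintype.card Om → τ ≤ D A

/-- CRC (short-medium). `lev D τ` is closed. If `τ ≤ β` it consists of all `PF` sets with at most `2t` elements (`β ≤ D B`). If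
`τ > β` and no element of `T` is `≥ τ` it is empty. Otherwise replace `τ` by the smallest element of `T` which is `≥ τ` (the
family is the same, as `D B ∈ T ∪ {β}`); so let `τ ∈ T`, `τ > β`. `up`: if `τ ≤ D B`, `B ⊆ B'` the set counted for `A = B'` is empty.
`spr`: as in CLC, with `hitF` (if `U ⊆ nu w` and `B ⊆ nu w` for some `B` of the family then `U ∪ B ⊆ nu w` has level `≥ τ`). -/
def CRC_stmt : Prop :=
  ∀ (P A Om : Type) [Fintype P] [DecidableEq P] [Fintype A] [Fintype Om] (S : Sys P A Om) (Φ : Om → ℝ)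
    (T : Finset ℝ) (β : ℝ) (D : Finset P → ℝ), (∀ B, D B = β ∨ D B ∈ T) → (∀ τ ∈ T, β ≤ τ) →
    (∀ B, ¬ (S.PF B ∧ B.card ≤ 2 * S.t) → D B = β) →
    (∀ τ ∈ T, ∀ B : Finset P, S.PF B → B.card ≤ 2 * S.t →
      ct (fun w => B ⊆ S.nu w ∧ Φ w < τ ∧ ¬ ∃ B', B' ⊆ S.nu w ∧ τ ≤ D B') * S.M ≤ Fintype.card Om → τ ≤ D B) →
    ∀ τ : ℝ, ClF S.PF S.k S.t (lev S.PF S.t D τ)

/-- GPR (medium). From GP1, GP2, EXM. Copy of GPE. `E = {a : not AccT (lev D (φ (hat F_i (g a)))) (g a)}`. If `E = ∅` clear.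
`U` of GP1; if `t ≤ #U` done. Otherwise let `C i = {B : PF, at most 2t elements, F_i B > F_i U}`: it is `lev F_i τ` for the smallest
value `τ` of `F_i` on all sets with `τ > F_i U` (finitely many sets), or empty if there is none; both are `ClF` (the empty
family is clear). GP2 gives `a ∈ E`, `U ⊆ g a`. CLAIM `hat F_i (g a) ≤ F_i U`: otherwise there is `B ⊆ g a`, `#B ≤ t`,
`F_i B > F_i U` (`exists_hat`, `PF ∅` by `gPF`), `B ∈ C i`, `U ∪ B ∈ C i` (`up`; `U ∪ B ⊆ g a` is `PF`), EXM: a minimal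
`Z ⊆ B \ U`, not empty because `U ∉ C i`, `#Z ≤ t`, `Z ⊆ g a`: excluded by GP2. So for all `w` with `U ⊆ nu w`:
`hat F_i (nu w) ≥ F_i U ≥ hat F_i (g a)` (`le_hat`), `φ(hat F_i (nu w)) ≥ φ(hat F_i (g a))`. The set in the hypothesis on `D` for
`τ = φ(hat F_i (g a))` and `B = U` is empty, so `τ ≤ D U`, and `U` shows `AccT (lev D τ) (g a)`: contradiction. -/
def GPR_stmt : Prop :=
  ∀ (P A Om : Type) [Fintype P] [DecidableEq P] [Fintype A] [Fintype Om] (S : Sys P A Om) (d : ℕ), d ≤ S.m →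
    ∀ F : Fin d → Finset P → ℝ, (∀ i τ, ClF S.PF S.k S.t (lev S.PF S.t (F i) τ)) →
    ∀ φ : (Fin d → ℝ) → ℝ, Monotone φ → ∀ D : Finset P → ℝ,
    (∀ a : A, ∀ B : Finset P, S.PF B → B.card ≤ 2 * S.t →
      ct (fun w => B ⊆ S.nu w ∧ (φ fun i => hat S.PF S.t (F i) (S.nu w)) < (φ fun i => hat S.PF S.t (F i) (S.g a)) ∧
        ¬ ∃ B', B' ⊆ S.nu w ∧ (φ fun i => hat S.PF S.t (F i) (S.g a)) ≤ D B') * S.M ≤ Fintype.card Om →
      (φ fun i => hat S.PF S.t (F i) (S.g a)) ≤ D B) →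
    ct (fun a => ¬ AccT S.t (lev S.PF S.t D (φ fun i => hat S.PF S.t (F i) (S.g a))) (S.g a)) * 4 ^ S.t ≤
      Fintype.card A

/-- APR (medium). From CLV, CLR, CRC, GPR. Copy of APM. `A` is not empty, so `PF ∅` (`gPF`). A variable (`z = ρ.symm j`):
`F B = 1` if `z ∈ B`, `0` otherwise; `lev F τ` is the family of all small `PF` sets (`τ ≤ 0`), `famV PF t z` (`0 < τ ≤ 1`) or empty.
Step: the gate `φ` applied to `a i` with level functions `F i`; `Φ w = φ(hat F_i (nu w))`, `T` = the finite set of all values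
`φ(hat F_i (nu w))`, `φ(hat F_i (g a))`, `β` = its minimum (`T` contains a value at some `a`); `D` of CLR, closed by CRC; new
errors: those of GPR and `{w : ∃ B ⊆ nu w, Φ w < D B}`. Outside the errors: `a_i(g a) ≤ hat F_i (g a)` (from `AccT` and `le_hat`), so
`v(g a) ≤ φ(hat F_i (g a))` and `AccT (lev D ..)` at the smaller number `v(g a)`; `hat F_i (nu w) ≤ a_i(nu w)` (`exists_hat`), so
`D B ≤ Φ w ≤ v(nu w)` for all `B ⊆ nu w`. -/
def APR_stmt : Prop :=
  ∀ (P A Om : Type) [Fintype P] [DecidableEq P] [Fintype A] [Fintype Om] (S : Sys P A Om) (N : ℕ) (ρ : P ≃ Fin N)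
    (l : List ((Fin N → Bool) → ℝ)), 0 < Fintype.card A → RProg S.m N l →
    ∃ (E : Finset A) (E' : Finset Om), E.card * 4 ^ S.t ≤ l.length * Fintype.card A ∧
      E'.card * S.M ≤ l.length * ((Fintype.card P + 1) ^ (2 * S.t) * Fintype.card Om) ∧
      ∀ v : (Fin N → Bool) → ℝ, (v ∈ l ∨ ∃ j, v = fun x => if x j = true then 1 else 0) →
        ∃ F : Finset P → ℝ, (∀ τ, ClF S.PF S.k S.t (lev S.PF S.t F τ)) ∧
          (∀ a, a ∉ E → AccT S.t (lev S.PF S.t F (v (inp ρ (S.g a)))) (S.g a)) ∧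
          ∀ w, w ∉ E' → ∀ B, S.PF B → B.card ≤ S.t → B ⊆ S.nu w → F B ≤ v (inp ρ (S.nu w))

/-- ABR (short-medium). From APR. Copy of ABS with `C = lev F τ`, `τ` the threshold of `RSize`: if some `B ∈ lev F τ` has at most
`t` elements every `w` with `B ⊆ nu w` is in `E'` (otherwise `τ ≤ F B ≤ v(nu w)`, `u(nu w) = 1`); if not, every `a` is in `E`
(otherwise `AccT (lev F (v(g a))) (g a)` and `τ ≤ v(g a)`). -/
def ABR_stmt : Prop :=
  ∀ (P A Om : Type) [Fintype P] [DecidableEq P] [Fintype A] [Fintype Om] (S : Sys P A Om) (N : ℕ) (ρ : P ≃ Fin N)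
    (u : BF N) (s : ℕ), 0 < Fintype.card A → 0 < Fintype.card Om → RSize S.m u s →
    (∀ a, u (inp ρ (S.g a)) = true) → (∀ w, u (inp ρ (S.nu w)) = false) →
    4 ^ S.t ≤ s ∨ S.M ≤ s * (S.lam * (Fintype.card P + 1) ^ (2 * S.t))

/-- BSR (short-medium). From ABR, SYK, NUM, REJ, TRI, PB.GS3. Copy of BSM with ABR in place of ABS. -/
def BSR_stmt : Prop :=
  ∃ C : ℕ, ∀ e r : ℕ, 6 ≤ e → 1 ≤ r → 32 * e * r ≤ 2 ^ e → ∃ h : BF (2 ^ (6 * e * (r + 1))), Mono h ∧
    Size std h (C * (2 ^ (6 * e * (r + 1)) + 2) ^ 4) ∧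
    ∀ s, RSize (2 ^ (6 * e * (r - 1))) h s → 2 ^ (2 ^ e) ≤ s

/-- RSB (short). Substitute variables by variables: `RProg m N l` gives `RProg m N' (l.map fun v x => v fun i => x (σ i))`; the
variable `j` becomes the variable `σ j`. And more inputs per gate are allowed if `m ≤ m'`. -/
def RSB_stmt : Prop :=
  ∀ (m m' N N' : ℕ) (h : BF N) (σ : Fin N → Fin N') (s : ℕ), m ≤ m' → RSize m h s →
    RSize m' (fun x : Fin N' → Bool => h fun i => x (σ i)) s

/-- QWR (medium). From BSR, QNM, RSB and PB.SUB, POL. Copy of QWM with `c = 1`, `f = h`: for `n ≥ n₀` let `e, r` be as in QNM for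
`c = 1`, `h` the function of BSR (`N = 2^(6e(r+1)) ≤ n` variables), `A_n(z) = h(z_0, ..., z_(N-1))`; for smaller `n` the constant 0.
A real circuit for `A_n` gives one for `h` (variables beyond `N` replaced by the first one: RSB), `2^(2^e) ≤ s`. Monotone. -/
def QWR_stmt : Prop :=
  ∀ m : ℕ → ℕ, (∃ n₁ : ℕ, ∀ n, n₁ ≤ n → 1 ≤ m n ∧ (m n : ℝ) * Real.logb 2 n ^ 19 ≤ n) →
    ∃ A : Lang, InPPoly A ∧ (∀ n, Mono (A n)) ∧ ∃ n₀ : ℕ, ∀ n, n₀ ≤ n → ∀ s : ℕ, RSize (m n) (A n) s →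
      (2 : ℝ) ^ (((n : ℝ) / m n) ^ (1 / 19 : ℝ)) ≤ s

end Pool.Agent.PC
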