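import Pool.Agent.helper64.PB.Asm
import Pool.Agent.helper64.PC.SpecR
import Pool.Agent.helper53.PC.CLV
import Pool.Agent.helper53.PC.MNC
import Pool.Agent.helper53.PC.EXM
import Pool.Agent.helper22.PC.CDB
import Pool.Agent.helper32.PC.CLE
import Pool.Agent.helper22.PC.CLC
import Pool.Agent.helper64.PC.GP1
import Pool.Agent.helper73.PC.GP2
import Pool.Agent.helper80.PC.GPE
import Pool.Agent.helper80.PC.APM
import Pool.Agent.helper22.PC.ABS
import Pool.Agent.helper25.PC.PCR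
import Pool.Agent.helper73.PC.IN1
import Pool.Agent.helper77.PC.IN2
import Pool.Agent.helper30.PC.SMM
import Pool.Agent.helper11.PC.GRM
import Pool.Agent.helper89.PC.HTM
import Pool.Agent.helper63.PC.SUQ
import Pool.Agent.helper63.PC.REJ
import Pool.Agent.helper63.PC.TRI
import Pool.Agent.helper40.PC.SYK
import Pool.Agent.helper49.PC.NUM
import Pool.Agent.helper82.PC.BSM
import Pool.Agent.helper27.PC.UPM
import Pool.Agent.helper27.PC.RSM
import Pool.Agent.helper27.PC.DUM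
import Pool.Agent.helper27.PC.WIM
import Pool.Agent.helper27.PC.GDM
import Pool.Agent.helper8.PC.WAM
import Pool.Agent.helper27.PC.WMM
import Pool.Agent.helper27.PC.WTM
import Pool.Agent.helper27.PC.CPT
import Pool.Agent.helper27.PC.FNB
import Pool.Agent.helper73.PC.FGC
import Pool.Agent.helper73.PC.FGA
import Pool.Agent.helper98.PC.FGE
import Pool.Agent.helper93.PC.TER
import Pool.Agent.helper27.PC.BFX
import Pool.Agent.helper22.PC.BFT
import Pool.Agent.helper11.PC.BFE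
import Pool.Agent.helper27.PC.TRP
import Pool.Agent.helper52.PC.PLY
import Pool.Agent.helper67.PC.FWM
import Pool.Agent.helper64.PC.BCM
import Pool.Agent.helper30.PC.QEM
import Pool.Agent.helper27.PC.QSM
import Pool.Agent.helper89.PC.QNM
import Pool.Agent.helper68.PC.QWM
import Pool.Agent.helper27.PC.GRL
import Pool.Agent.helper27.PC.NQW
import Pool.Agent.helper64.PC.RCE
import Pool.Agent.helper30.PC.CLR
import Pool.Agent.helper64.PC.CRC
import Pool.Agent.helper53.PC.GPR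
import Pool.Agent.helper53.PC.APR
import Pool.Agent.helper53.PC.ABR
import Pool.Agent.helper97.PC.BSR
import Pool.Agent.helper27.PC.RSB
import Pool.Agent.helper27.PC.QWR

/-!
# Assembly of the rows pc:* (MP_069684_lc): arbitrary bases, gates of large fan-in, real gates
-/

set_option autoImplicit false

namespace Pool.Agent.PC

open Pool.Agent.PB

theorem pCLV : CLV_stmt := CLV

theorem pMNC : MNC_stmt := MNC pSPF

theorem pEXM : EXM_stmt := EXM

theorem pCDB : CDB_stmt := CDB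

theorem pCLE : CLE_stmt := CLE

theorem pCLC : CLC_stmt := CLC

theorem pGP1 : GP1_stmt := GP1

theorem pGP2 : GP2_stmt := GP2 pMNC

theorem pGPE : GPE_stmt := GPE pGP1 pGP2 pEXM

theorem pAPM : APM_stmt := APM pCLV pCDB pCLE pCLC pGPE

theorem pABS : ABS_stmt := ABS pAPM

theorem pPCR : PCR_stmt := PCR pPCN

theorem pIN1 : IN1_stmt := IN1

theorem pIN2 : IN2_stmt := IN2 pIN1

theorem pSMM : SMM_stmt := SMM

theorem pGRM : GRM_stmt := GRM

theorem pHTM : HTM_stmt := HTM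

theorem pSUQ : SUQ_stmt := SUQ

theorem pREJ : REJ_stmt := REJ pSUQ

theorem pTRI : TRI_stmt := TRI

theorem pSYK : SYK_stmt := SYK pPCR pIN2 pSMM pGRM pHTM

theorem pNUM : NUM_stmt := NUM

theorem pBSM : BSM_stmt := BSM pABS pSYK pNUM pREJ pTRI pGS3

theorem pUPM : UPM_stmt := UPM

theorem pRSM : RSM_stmt := RSM pSUB

theorem pDUM : DUM_stmt := DUM pDUA

theorem pWIM : WIM_stmt := WIM pUPM pRSM pS12 pHIN pHLO pHUP pMXK pNMI pTKI

theorem pGDM : GDM_stmt := GDM pDUA pDUM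

theorem pWAM : WAM_stmt := WAM pRSM pCLP pCMP pDNF

theorem pWMM : WMM_stmt := WMM pRSM pSDG pCMP pDNF

theorem pWTM : WTM_stmt := WTM pWIM pGDM pWAM pWMM pMON pDUA

theorem pCPT : CPT_stmt := CPT

theorem pFNB : FNB_stmt := FNB

theorem pFGC : FGC_stmt := FGC pPRP pCLP pSUB pCMP

theorem pFGA : FGA_stmt := FGA pPRP pCLP pSUB pCMP

theorem pFGE : FGE_stmt := FGE pCSE pRTP pRT0 pEID pET0 pEAL pESD pDNF pDUA pPRP pCLP

theorem pTER : TER_stmt := TER pPRP pDUA pCLP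

theorem pBFX : BFX_stmt := BFX pCPT pFNB pTRB

theorem pBFT : BFT_stmt := BFT pFGC pFGA pBFX pTTH pPRP pDUA

theorem pBFE : BFE_stmt := BFE pFGE pTER pBFX pETH

theorem pTRP : TRP_stmt := TRP pSUB

theorem pPLY : PLY_stmt := PLY

theorem pFWM : FWM_stmt := FWM pBFE pPOL

theorem pBCM : BCM_stmt := BCM pTRP pPLY pRST

theorem pQEM : QEM_stmt := QEM pFWM pBCM pCLA pNPA

theorem pQSM : QSM_stmt := QSM pFWM pBCM pCLB pNPS pNPC pPRP

theorem pQNM : QNM_stmt := QNM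

theorem pQWM : QWM_stmt := QWM pBSM pQNM pSUB pPOL

theorem pGRL : GRL_stmt := GRL

theorem pNQW : NQW_stmt := NQW pQWM pGRL pPNP

theorem pRCE : RCE_stmt := RCE

theorem pCLR : CLR_stmt := CLR pRCE pCDB

theorem pCRC : CRC_stmt := CRC

theorem pGPR : GPR_stmt := GPR pGP1 pGP2 pEXM

theorem pAPR : APR_stmt := APR pCLV pCLR pCRC pGPR

theorem pABR : ABR_stmt := ABR pAPR

theorem pBSR : BSR_stmt := BSR pABR pSYK pNUM pREJ pTRI pGS3

theorem pRSB : RSB_stmt := RSB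

theorem pQWR : QWR_stmt := QWR pBSR pQNM pRSB pSUB pPOL

theorem triv_poly (G : Set Gate) (c : ℕ)
    (hc : ∀ n, 1 ≤ n → ∀ f : BF n, (∃ s, Size G f s) → Size (upTo G c) f (c * n)) (m : ℕ → ℕ) (A : Lang)
    (hA : Slices G A) : PolyF G m A := by
  refine ⟨c + 1, fun n hn => ?_⟩
  have h1 := hc n hn (A n) (hA n hn)
  refine Size.mono_size ?_ (Size.mono_basis (upTo_mono (by omega)) h1)
  rcases Nat.lt_or_ge n 2 with h2 | h2
  · have h3 : n = 1 := by omega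
    subst h3
    simp
    omega
  · have h3 : c < n ^ c := Nat.lt_pow_self (by omega)
    have h4 : c * n ≤ n ^ c * n := Nat.mul_le_mul_right n h3.le
    have h5 : n ^ (c + 1) = n ^ c * n := pow_succ n c
    omega

theorem main_of (hBFT : BFT_stmt) (hWTM : WTM_stmt) (hQWM : QWM_stmt) (hNQW : NQW_stmt) (hBFE : BFE_stmt)
    (hQEM : QEM_stmt) (hQSM : QSM_stmt) (G : Set Gate) :
    (Trivial G →
      (∃ c : ℕ, ∀ n, 1 ≤ n → ∀ f : BF n, (∃ s, Size G f s) → Size (upTo G c) f (c * n)) ∧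
      ∀ (m : ℕ → ℕ) (A : Lang), Slices G A → PolyF G m A) ∧
    (Weak G →
      (∃ c : ℕ, ∀ (n : ℕ) (h : BF n), 1 ≤ n → Mono h → ∃ k, 1 ≤ k ∧ k ≤ c * n ∧ ∃ f : BF k,
        (∃ s, Size G f s) ∧ (∀ s, Size std h s → Size std f (c * (s + n))) ∧
        ∀ r s, Size (upTo G r) f s → Size (upTo monG r) h (s + 2)) ∧
      (∀ m : ℕ → ℕ, (∃ n₁ : ℕ, ∀ n, n₁ ≤ n → 1 ≤ m n ∧ (m n : ℝ) * Real.logb 2 n ^ 19 ≤ n) →
        ∃ A : Lang, InPPoly A ∧ Slices G A ∧ ∃ n₀ : ℕ, ∀ n, n₀ ≤ n → ∀ s : ℕ, Size (upTo G (m n)) (A n) s →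
          (2 : ℝ) ^ (((n : ℝ) / m n) ^ (1 / 19 : ℝ)) ≤ s) ∧
      ∀ m : ℕ → ℕ, (∃ n₁ : ℕ, ∀ n, n₁ ≤ n → (m n : ℝ) * Real.logb 2 n ^ 20 ≤ n) →
        ¬ ∀ A : Lang, Slices G A → InNPPoly A → PolyF G m A) ∧
    (¬ Trivial G → ¬ Weak G →
      (∃ c : ℕ, ∀ n, 1 ≤ n → ∀ f : BF n, (∃ s, Size G f s) → ∀ s, Size std f s →
        Size (upTo G c) f (c * (s + n))) ∧
      (PolyGates G → ∀ m : ℕ → ℕ, (∃ d : ℕ, ∀ n, m n ≤ n ^ d + d) →
        ((∃ g ∈ G, ¬ SelfDual g.2) →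
          ((∀ A : Lang, Slices G A → InNPPoly A → PolyF G m A) ↔ ∀ A : Lang, InNPPoly A → InPPoly A)) ∧
        ((∀ g ∈ G, SelfDual g.2) →
          ((∀ A : Lang, Slices G A → InNPPoly A → PolyF G m A) ↔
            ∀ A : Lang, InNPPoly A → InNPPoly (Pool.Agent.PB.compl A) → InPPoly A))))
    := by
  refine ⟨fun hT => ?_, fun hW => ⟨hWTM G hW, hQWM G (hWTM G hW), hNQW G (hWTM G hW)⟩, fun hT hW =>
    ⟨hBFE G hT hW, fun hP m hm => ⟨hQEM G m hP hm hT hW, hQSM G m hP hm hT hW⟩⟩⟩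
  obtain ⟨c, hc⟩ := hBFT G hT
  exact ⟨⟨c, hc⟩, triv_poly G c hc⟩

end Pool.Agent.PC
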