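import Pool.Agent.helper64.PB.Defs

/-!
# P/Poly versus NP/Poly over an arbitrary, also infinite, basis (MP_069684_lc): definitions
-/

set_option autoImplicit false

namespace Pool.Agent.PC

open Pool.Agent.PB

/-- The gates of `G` with at most `r` inputs. -/
def upTo (G : Set Gate) (r : ℕ) : Set Gate := {g | g ∈ G ∧ g.1 ≤ r}

/-- All monotone gates. -/
def monG : Set Gate := {g | Mono g.2}

/-- `A` has circuits of polynomial size over the gates of `G` with at most `m n + c` inputs, `c` constant (`n ≥ 1`). -/
def PolyF (G : Set Gate) (m : ℕ → ℕ) (A : Lang) : Prop :=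
  ∃ c : ℕ, ∀ n, 1 ≤ n → Size (upTo G (m n + c)) (A n) (n ^ c + c)

/-- Every gate of `G` has a circuit over the standard basis whose size is polynomial in the number of its inputs. -/
def PolyGates (G : Set Gate) : Prop := ∃ d : ℕ, ∀ g ∈ G, Size std g.2 (g.1 ^ d + d)

end Pool.Agent.PC
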