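import Pool.Agent.helper64.PC.Defs

/-!
# Circuits whose gates are nondecreasing functions of few real variables
-/

set_option autoImplicit false

namespace Pool.Agent.PC

open Pool.Agent.PB

/-- `RProg m N l`: the real valued functions in the list `l` (of `N` Boolean variables, the last computed function first)
are computed one after the other: each is an arbitrary nondecreasing function `φ : ℝ^d → ℝ`, `d ≤ m`, applied to variables
(as numbers 0, 1) and to functions computed earlier. The length of `l` is the number of gates. -/
inductive RProg (m N : ℕ) : List ((Fin N → Bool) → ℝ) → Prop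
  | nil : RProg m N []
  | step (l : List ((Fin N → Bool) → ℝ)) (d : ℕ) (φ : (Fin d → ℝ) → ℝ) (a : Fin d → (Fin N → Bool) → ℝ) :
      RProg m N l → d ≤ m → Monotone φ → (∀ i, a i ∈ l ∨ ∃ j, a i = fun x => if x j = true then 1 else 0) →
      RProg m N ((fun x => φ fun i => a i x) :: l)

/-- `h` is computed by at most `s` real gates with at most `m` inputs: `h x = 1` if and only if the last function has a value
at least `τ`. -/
def RSize (m : ℕ) {N : ℕ} (h : BF N) (s : ℕ) : Prop :=
  ∃ l, RProg m N l ∧ l.length ≤ s ∧ ∃ v, (v ∈ l ∨ ∃ j, v = fun x => if x j = true then 1 else 0) ∧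
    ∃ τ : ℝ, ∀ x, h x = true ↔ τ ≤ v x

end Pool.Agent.PC
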