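import Pool.Agent.helper64.PC.SpecX

/-!
# pc:* rows, block K: the function and its inputs

`K` is a finite field of characteristic 2, the points are `(x, y)`, `x : K` (the column), `y : Fin r → K`. Positive inputs: the
graphs `y = A(x)` of `r`-tuples of polynomials of degree `≤ c`. Negative inputs: unions of `G` sets `ev θ ∈ S`, where
`ev θ (x, y) = x^D + ∑_{u<d} x^u (b_u + ∑_i λ_{i,u} y_i)`. The function: some set in the `F_2`-affine span of the graphs is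
contained in the input.
-/

set_option autoImplicit false

namespace Pool.Agent.PC

open Finset Polynomial Pool.Agent.PB

/-- points -/
abbrev Pt (K : Type) (r : ℕ) : Type := K × (Fin r → K)

/-- parameters of the negative inputs -/
abbrev Th (K : Type) (d r : ℕ) : Type := (Fin d → K) × (Fin r → Fin d → K)

section
variable {K : Type} [Field K] [Fintype K] [DecidableEq K] {r : ℕ}

/-- at most one point in every column -/
def PFr (B : Finset (Pt K r)) : Prop := ∀ z ∈ B, ∀ z' ∈ B, z.1 = z'.1 → z = z'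

/-- the curve with the coefficients `a` -/
def cvF {c : ℕ} (a : Fin r → Fin (c + 1) → K) (α : K) : Fin r → K := fun i => ∑ u, a i u * α ^ (u : ℕ)

/-- its graph -/
def grF {c : ℕ} (a : Fin r → Fin (c + 1) → K) : Finset (Pt K r) := univ.filter fun z => z.2 = cvF a z.1

/-- the linear part of `ev` -/
def ev0 {d : ℕ} (θ : Th K d r) (z : Pt K r) : K := ∑ u : Fin d, z.1 ^ (u : ℕ) * (θ.1 u + ∑ i, θ.2 i u * z.2 i)

/-- `x^D + ∑_u x^u (b_u + ∑_i λ_{i,u} y_i)` -/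
def ev {d : ℕ} (D : ℕ) (θ : Th K d r) (z : Pt K r) : K := z.1 ^ D + ev0 θ z

/-- the set `ev θ ∈ S` -/
def Hp {d : ℕ} (D : ℕ) (S : Finset K) (θ : Th K d r) : Finset (Pt K r) := univ.filter fun z => ev D θ z ∈ S

/-- the negative input of the sample `ω` -/
def Ngf {d : ℕ} (D : ℕ) (S : Finset K) {G : ℕ} (ω : Fin G → Th K d r) : Finset (Pt K r) :=
  univ.biUnion fun g => Hp D S (ω g)

/-- `V` passes every test which all graphs pass (`V` is in the affine span of the graphs). -/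
def AffG (c : ℕ) (V : Finset (Pt K r)) : Prop :=
  ∀ R : Pt K r → K, (∀ a : Fin r → Fin (c + 1) → K, ∑ z ∈ grF a, R z = 1) → ∑ z ∈ V, R z = 1

end

/-- PCR (short-medium). From PB.PCN. `B ⊆ grF a` iff for every `i` the graph of the polynomial `a i` contains
`B_i = {(x, y_i) : (x, y) ∈ B}` (`gr (a i)`); `B_i` is `PF` with `#B` elements (different points of `B` have different columns). So the
number of `a` is the product over `i` of the numbers for `B_i`, each at most `q^(c+1) / q^(#B)`. (`Fintype.piFinset` or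
`Fintype.card_pi`; the number of all `a` is `(q^(c+1))^r`.) -/
def PCR_stmt : Prop :=
  ∀ (K : Type) [Field K] [Fintype K] [DecidableEq K] (c r : ℕ) (B : Finset (Pt K r)), PFr B → B.card ≤ c + 1 →
    c + 1 ≤ Fintype.card K →
    ct (fun a : Fin r → Fin (c + 1) → K => B ⊆ grF a) * (Fintype.card K ^ r) ^ B.card ≤
      Fintype.card (Fin r → Fin (c + 1) → K)

/-- IN1 (medium). Interpolation. For every column `x` of `B ∪ B'` there are `β x : K`, `μ x : Fin r → K` with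
`β x + ∑_i μ x i * y_i = τ (x, y)` for the (one or two) points of `B ∪ B'` in this column: one point: `μ = 0`, `β = τ`; two points
`y ≠ y'` (one of `B` and one of `B'`): choose `i` with `y_i ≠ y'_i`, `μ_i = (τ - τ') / (y_i - y'_i)`, the other `μ_j = 0`. There are
at most `#(B ∪ B') ≤ d` columns, so there are polynomials of degree `< d` with coefficients `θ.1`, `θ.2 i` and the values `β x`,
`μ x i` at these columns (`Lagrange.interpolate`; a polynomial of degree `< d` is `∑_{u<d} coeff u * x^u`). -/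
def IN1_stmt : Prop :=
  ∀ (K : Type) [Field K] [Fintype K] [DecidableEq K] (d r : ℕ) (B B' : Finset (Pt K r)), PFr B → PFr B' →
    (B ∪ B').card ≤ d → ∀ τ : Pt K r → K, ∃ θ : Th K d r, ∀ z ∈ B ∪ B', ev0 θ z = τ z

/-- IN2 (medium). From IN1. `T = B ∪ B'`. The map `θ ↦ (ev0 θ z)_{z ∈ T}` is an additive homomorphism from `Th K d r` onto
`T → K` (IN1), so all its fibres have the same number `ν` of elements and `#Th = ν q^(#T)`. `T ⊆ Hp D S θ` iff
`ev0 θ z ∈ S - z.1^D` for all `z ∈ T`: `(#S)^(#T)` fibres. So the number is `ν (#S)^(#T)`, and times `L^(#T)` it is `#Th`. -/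
def IN2_stmt : Prop :=
  ∀ (K : Type) [Field K] [Fintype K] [DecidableEq K] (d r D L : ℕ) (S : Finset K) (B B' : Finset (Pt K r)),
    PFr B → PFr B' → (B ∪ B').card ≤ d → S.card * L = Fintype.card K →
    ct (fun θ : Th K d r => B ∪ B' ⊆ Hp D S θ) * L ^ (B ∪ B').card = Fintype.card (Th K d r)

/-- SMM (medium). Second moment. Copy of SM2 (`Pool/Agent/helper40/PB/SM2.lean`) with an abstract hitting relation.
`X(ψ) = #{B ∈ F : B ⊆ hs ψ}`. `∑_ψ X = #F #Ψ L^(-i)`, `∑_ψ X^2 = ∑_{B,B'} #Ψ L^(-#(B ∪ B')) = #Ψ L^(-2i) ∑_{B,B'} L^(#(B ∩ B'))`, and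
`L^(#(B ∩ B')) = ∑_{Z ⊆ B ∩ B'} (L-1)^(#Z)`, so the sum over `B'` is `≤ ∑_{Z ⊆ B} L^(#Z) #{B' ∈ F : Z ⊆ B'} ≤ #F (1 + 1/(4t))^i ≤ 2 #F`
(`i ≤ 2t`). Cauchy-Schwarz: `(∑ X)^2 ≤ #{X > 0} ∑ X^2`. -/
def SMM_stmt : Prop :=
  ∀ (P Ps : Type) [Fintype P] [DecidableEq P] [Fintype Ps] (PF : Finset P → Prop) (hs : Ps → Finset P) (L t : ℕ),
    1 ≤ L → 1 ≤ t →
    (∀ B B' : Finset P, PF B → PF B' → B.card ≤ 2 * t → B'.card ≤ 2 * t →
      ct (fun ψ => B ∪ B' ⊆ hs ψ) * L ^ (B ∪ B').card = Fintype.card Ps) →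
    ∀ (F : Finset (Finset P)) (i : ℕ), i ≤ 2 * t → F.Nonempty → (∀ B ∈ F, PF B ∧ B.card = i) →
    (∀ Z : Finset P, (F.filter fun B => Z ⊆ B).card * (4 * t * L) ^ Z.card ≤ F.card) →
    Fintype.card Ps ≤ ct (fun ψ => ∃ B ∈ F, B ⊆ hs ψ) * 2

/-- GRM (short). If no `B ∈ F` is contained in the union then no `hs (ω g)` contains a `B ∈ F`; the number of such `ω` is
`(#Ψ - h)^G` with `h = #{ψ : ..} ≥ #Ψ/2`. Compare `Pool/Agent/helper45/PB/GRP.lean`. -/
def GRM_stmt : Prop :=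
  ∀ (P Ps : Type) [Fintype P] [DecidableEq P] [Fintype Ps] (hs : Ps → Finset P) (G : ℕ) (F : Finset (Finset P)),
    Fintype.card Ps ≤ ct (fun ψ => ∃ B ∈ F, B ⊆ hs ψ) * 2 →
    ct (fun ω : Fin G → Ps => ¬ ∃ B ∈ F, B ⊆ univ.biUnion fun g => hs (ω g)) * 2 ^ G ≤ Fintype.card (Fin G → Ps)

/-- HTM (short). The `ω` with `B ⊆ hs (ω 0)`, `0 : Fin G`: there are `#{ψ : ..} * (#Ψ)^(G-1)` of them. (For example
`Fintype.piFinset` with the set for `g = 0` and `univ` for the others.) -/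
def HTM_stmt : Prop :=
  ∀ (P Ps : Type) [Fintype P] [DecidableEq P] [Fintype Ps] (hs : Ps → Finset P) (G lam : ℕ) (B : Finset P),
    1 ≤ G → Fintype.card Ps ≤ ct (fun ψ => B ⊆ hs ψ) * lam →
    Fintype.card (Fin G → Ps) ≤ ct (fun ω : Fin G → Ps => B ⊆ univ.biUnion fun g => hs (ω g)) * lam

/-- SUQ (short). `∑_x x^i = 0` for `i < q - 1` (`FiniteField.sum_pow_lt_card_sub_one`) and `∑_x x^(q-1) = q - 1 = -1` (`x^(q-1) = 1`
for `x ≠ 0`). -/
def SUQ_stmt : Prop :=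
  ∀ (K : Type) [Field K] [Fintype K] [DecidableEq K] (P : K[X]), P.Monic → P.natDegree = Fintype.card K - 1 →
    ∑ α : K, P.eval α = -1

/-- REJ (medium). From SUQ. Let `D = d + c`, `E = q - 1 - G #S D`,
`R z = z.1^E * ∏_g ∏_{s ∈ S} (ev D (ω g) z - s)`; it vanishes on `Ngf D S ω`. For every `a` the points of the graph are
`(x, cvF a x)`, `x : K`, and `R (x, cvF a x) = P(x)` with the polynomial
`P = X^E * ∏_g ∏_s (X^D + ∑_{u<d} X^u (C b_u + ∑_i C λ_{i,u} * A_i) - C s)`, `A_i = ∑_u C (a i u) X^u` of degree `≤ c`: the factors are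
monic of degree `D` (the other terms have degree `≤ d - 1 + c < D`), so `P` is monic of degree `E + G #S D = q - 1` and the sum
over the graph is `-1 = 1` (characteristic 2). If `AffG c V` and `V ⊆ Ngf D S ω` then `1 = ∑_{z ∈ V} R z = 0`. -/
def REJ_stmt : Prop :=
  ∀ (K : Type) [Field K] [Fintype K] [DecidableEq K] [CharP K 2] (c d r G : ℕ) (S : Finset K)
    (ω : Fin G → Th K d r) (V : Finset (Pt K r)), 1 ≤ d → G * (S.card * (d + c)) + 1 ≤ Fintype.card K →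
    V ⊆ Ngf (d + c) S ω → ¬ AffG c V

/-- TRI (short). In characteristic 2 the sum of `R` over a symmetric difference is the sum of the sums, and `1 + 1 + 1 = 1`. -/
def TRI_stmt : Prop :=
  ∀ (K : Type) [Field K] [Fintype K] [DecidableEq K] [CharP K 2] (c r : ℕ) (U V W : Finset (Pt K r)),
    AffG c U → AffG c V → AffG c W → AffG c (symmDiff U (symmDiff V W))

/-- SYK (medium). From PCR, IN2, SMM, GRM, HTM. The system of the lower bound: `PF = PFr`, `g = grF`, `nu = Ngf D S`, `t = 2^e`,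
`k = 4 t L`, `L = 2^(4e)`, `kap = q^r`, `M = 2^(2^(2e))`, `lam = L^t`, `m = 2^(6e(r-1))`, `d = 4t`, `D = 6t` (any `D`). `sub`: clear;
`gPF`: a graph has one point in every column; `kp`: `2^4 2^(6e(r-1)) 2^(5e+2) ≤ 2^(6er)` as `e ≥ 6`; `pos`: PCR with `c = 2t`
(`2t + 1 ≤ q`); `hitF`: IN2 (`#(B ∪ B') ≤ 4t`), SMM, GRM; `hit1`: IN2 with `B' = B` gives `#Th = ct * L^(#B) ≤ ct * L^t`, HTM. -/
def SYK_stmt : Prop :=
  ∀ (K : Type) [Field K] [Fintype K] [DecidableEq K] (e r D : ℕ) (S : Finset K), 6 ≤ e → 1 ≤ r →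
    Fintype.card K = 2 ^ (6 * e) → S.card = 2 ^ (2 * e) →
    ∃ Y : Sys (Pt K r) (Fin r → Fin (2 * 2 ^ e + 1) → K) (Fin (2 ^ (2 * e)) → Th K (4 * 2 ^ e) r),
      Y.g = (fun a => grF a) ∧ Y.nu = (fun ω => Ngf D S ω) ∧ Y.t = 2 ^ e ∧ Y.M = 2 ^ (2 ^ (2 * e)) ∧
      Y.lam = (2 ^ (4 * e)) ^ (2 ^ e) ∧ Y.m = 2 ^ (6 * e * (r - 1))

/-- NUM (short-medium). `N + 1 ≤ 2^(6e(r+1)+1)`, so if the second alternative holds
`2^(2^(2e)) ≤ s 2^(2^e (4e + 12e(r+1) + 2))`, and `2^(2e) - 2^e (4e + 12 e(r+1) + 2) ≥ 2^e` because `2^e ≥ 32 e r ≥ 16e + 12er + 3`. -/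
def NUM_stmt : Prop :=
  ∀ e r s : ℕ, 6 ≤ e → 1 ≤ r → 32 * e * r ≤ 2 ^ e →
    (4 ^ (2 ^ e) ≤ s ∨
      2 ^ (2 ^ (2 * e)) ≤ s * ((2 ^ (4 * e)) ^ (2 ^ e) * (2 ^ (6 * e * (r + 1)) + 1) ^ (2 * 2 ^ e))) →
    2 ^ (2 ^ e) ≤ s

/-- BSM (medium). From ABS, SYK, NUM, REJ, TRI, PB.GS3. `K = GaloisField 2 (6e)`, `q = 2^(6e)`, `S` any subset with `2^(2e)`
elements, `D = 4 2^e + 2 2^e`, `ρ : Pt K r ≃ Fin (2^(6e(r+1)))`; `h x = 1` iff some `V` with `AffG (2 2^e) V` is contained in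
`{z : x (ρ z) = 1}`. Monotone; size: GS3 with the indicators of these `V` (TRI); graphs are accepted (`AffG` of a graph is
clear); the negative inputs are rejected: REJ with `d = 4 2^e`, `c = 2 2^e`, `G = 2^(2e)`:
`2^(2e) 2^(2e) 6 2^e + 1 ≤ 2^(6e)`. Lower bound: ABS for the system of SYK, NUM. -/
def BSM_stmt : Prop :=
  ∃ C : ℕ, ∀ e r : ℕ, 6 ≤ e → 1 ≤ r → 32 * e * r ≤ 2 ^ e → ∃ h : BF (2 ^ (6 * e * (r + 1))), Mono h ∧
    Size std h (C * (2 ^ (6 * e * (r + 1)) + 2) ^ 4) ∧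
    ∀ s, Size (upTo monG (2 ^ (6 * e * (r - 1)))) h s → 2 ^ (2 ^ e) ≤ s

end Pool.Agent.PC
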