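import Pool.Agent.helper64.PC.SpecK

/-!
# pc:* rows, block V: case (W) for arbitrary bases and large fan-in
-/

set_option autoImplicit false

namespace Pool.Agent.PC

open Pool.Agent.PB

/-- UPM (short-medium). Copy of UPC (`Pool/Agent/helper32/PB/UPC.lean`) without the translation of bases: for a gate `g` with
`Inter k`, `k ≥ 1`, the up-closure `g⁺ x = [∃ y ≤ x, g y = 1]` has the same number of inputs, is monotone, has `Inter k`, and
`g ≤ g⁺`. Induction on the program: every function `u` of it has a `u⁺ ≥ u` in a program over `upTo monG r` of the same length,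
`u⁺` monotone with `Inter k`. -/
def UPM_stmt : Prop :=
  ∀ (G : Set Gate) (k r : ℕ), 1 ≤ k → (∀ g ∈ G, Inter k g.2) → ∀ (n : ℕ) (f : BF n) (s : ℕ), Size (upTo G r) f s →
    ∃ u : BF n, Mono u ∧ Inter k u ∧ (∀ x, f x = true → u x = true) ∧ Size (upTo monG r) u s

/-- RSM (short). From PB.SUB. Copy of RST (`Pool/Agent/helper13/PB/RST.lean`) for any basis with the two constant gates. -/
def RSM_stmt : Prop :=
  ∀ (B : Set Gate), gConst false ∈ B → gConst true ∈ B → ∀ (m n : ℕ) (u : BF m) (s : ℕ) (φ : Fin m → BF n),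
    (∀ i, (∃ j, φ i = fun x => x j) ∨ ∃ v, φ i = fC v n) → Size B u s → Size B (fun x => u fun i => φ i x) (s + 2)

/-- DUM (short). From PB.DUA: `dualB (upTo G r) = upTo (dualB G) r` (as sets), `dualB (upTo monG r) = upTo monG r`, and the
fourth part of DUA for `upTo G r`, `upTo monG r`. -/
def DUM_stmt : Prop :=
  (∀ (G : Set Gate) (r n : ℕ) (f : BF n) (s : ℕ), Size (upTo (dualB G) r) (dual f) s ↔ Size (upTo G r) f s) ∧
  ∀ (r n : ℕ) (f : BF n) (s : ℕ), Size (upTo monG r) (dual f) s ↔ Size (upTo monG r) f s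

/-- The statement of case (W): for every monotone `h` there is `f ∈ [G]` of `m ≤ c n` variables with
`L(f) ≤ c (L(h) + n)`, and every circuit for `f` over the gates of `G` with at most `r` inputs gives a circuit for `h` of
monotone gates with at most `r` inputs, with at most two more gates. -/
def GapM (G : Set Gate) : Prop :=
  ∃ c : ℕ, ∀ (n : ℕ) (h : BF n), 1 ≤ n → Mono h → ∃ m, 1 ≤ m ∧ m ≤ c * n ∧ ∃ f : BF m, InCl G f ∧
    (∀ s, Size std h s → Size std f (c * (s + n))) ∧
    ∀ r s, Size (upTo G r) f s → Size (upTo monG r) h (s + 2)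

/-- WIM (short-medium). From UPM, RSM and PB.S12, HIN, HLO, HUP, MXK, NMI, TKI. Copy of WIN (`Pool/Agent/helper27/PB/WIN.lean`):
`k + 2` = the largest number of MXK; `fM, fAnd, fT (k + 2) ∈ [G]` (NMI, TKI), `f = fH k n h ∈ [G]` (S12, HIN), size HUP. A circuit
over `upTo G r` gives `u` (UPM for `k + 2`), `h` is a restriction of `u` (HLO), RSM for `upTo monG r`. -/
def WIM_stmt : Prop := ∀ G : Set Gate, (∃ g ∈ G, ¬ Mono g.2) → Gap G → GapM G

/-- GDM (short). From PB.DUA and DUM. Copy of GDU (`Pool/Agent/helper25/PB/GDU.lean`). -/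
def GDM_stmt : Prop := ∀ G : Set Gate, GapM (dualB G) → GapM G

/-- WAM (short-medium). From RSM and PB.CLP, CMP, DNF (if needed). Copy of WAO (`Pool/Agent/helper83/PB/WAO.lean`; you may import
it and use its lemmas): for nonconstant monotone `h` take `f(x, e) = e and h(x) ∈ [G]`; all gates of `G` are monotone, so
`upTo G r ⊆ upTo monG r` (`Size.mono_basis`), and `e = 1` gives `h` (RSM). Constant `h`: `f = x_0`, `m = 1`, and `h` has size `≤ 1` over
`upTo monG r` (a gate without inputs). -/
def WAM_stmt : Prop := ∀ G : Set Gate, (∀ g ∈ G, Mono g.2) → InCl G fAO → GapM G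

/-- WMM (short-medium). From RSM and PB.SDG, CMP, DNF. Copy of WMJ (`Pool/Agent/helper82/PB/WMJ.lean`; you may import it and
use its lemmas): `f(x, a, b)` = `a` if `a = b`, `h(x)` if `a = 1, b = 0`, `not h(not x)` if `a = 0, b = 1`; `upTo G r ⊆ upTo monG r`, and
`a = 1, b = 0` gives `h` (RSM). -/
def WMM_stmt : Prop := ∀ G : Set Gate, (∀ g ∈ G, Mono g.2) → InCl G fMaj → GapM G

/-- WTM (short). From WIM, GDM, WAM, WMM and PB.MON, DUA. Copy of WTH (`Pool/Agent/helper10/PB/WTH.lean`). -/
def WTM_stmt : Prop := ∀ G : Set Gate, Weak G → GapM G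

end Pool.Agent.PC
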