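import Pool.Agent.helper64.PC.Basic

/-!
# pc:* rows, block X: the approximation method for monotone gates of large fan-in, abstract

Problem MP_069684_lc. Every `XX_stmt` is one row `pc:XX`; its complete proof is in its docstring.
File `Pool/Agent/<seat>/PC/XX.lean`, `namespace Pool.Agent.PC`, auxiliary lemmas prefixed `XX_`; other rows only as
hypotheses (exact theorem line in the lock note).

`P` is a finite set of points, `g a` are the positive inputs, `nu w` the negative inputs (sets of points). The data and the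
hypotheses are collected in the structure `Sys`. `ct p` is the number of elements with the property `p` (lemmas in `Basic`).
-/

set_option autoImplicit false

namespace Pool.Agent.PC

open Finset Pool.Agent.PB

/-- Points, positive and negative inputs, and the properties used by the lower bound. -/
structure Sys (P A Om : Type) [Fintype P] [DecidableEq P] [Fintype A] [Fintype Om] where
  PF : Finset P → Prop
  g : A → Finset P
  nu : Om → Finset P
  t : ℕ
  k : ℕ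
  kap : ℕ
  M : ℕ
  lam : ℕ
  m : ℕ
  sub : ∀ B B' : Finset P, B ⊆ B' → PF B' → PF B
  gPF : ∀ (a : A) (B : Finset P), B ⊆ g a → PF B
  t1 : 1 ≤ t
  k2 : 2 ≤ k
  m1 : 1 ≤ m
  kp : 16 * m * k ≤ kap
  M1 : 1 ≤ M
  pos : ∀ B : Finset P, PF B → B.card ≤ 2 * t → ct (fun a => B ⊆ g a) * kap ^ B.card ≤ Fintype.card A
  hitF : ∀ (F : Finset (Finset P)) (i : ℕ), i ≤ 2 * t → F.Nonempty → (∀ B ∈ F, PF B ∧ B.card = i) →
    (∀ Z : Finset P, (F.filter fun B => Z ⊆ B).card * k ^ Z.card ≤ F.card) →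
    ct (fun w => ¬ ∃ B ∈ F, B ⊆ nu w) * M ≤ Fintype.card Om
  hit1 : ∀ B : Finset P, PF B → B.card ≤ t → Fintype.card Om ≤ ct (fun w => B ⊆ nu w) * lam

section
variable {P : Type} [Fintype P] [DecidableEq P]

/-- Some member with at most `t` elements is contained in `x`. -/
def AccT (t : ℕ) (C : Finset (Finset P)) (x : Finset P) : Prop := ∃ B ∈ C, B.card ≤ t ∧ B ⊆ x

/-- Closed families. -/
structure ClF (PF : Finset P → Prop) (k t : ℕ) (C : Finset (Finset P)) : Prop where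
  mem : ∀ B ∈ C, PF B ∧ B.card ≤ 2 * t
  up : ∀ B ∈ C, ∀ B' : Finset P, B ⊆ B' → PF B' → B'.card ≤ 2 * t → B' ∈ C
  spr : ∀ (U : Finset P) (F : Finset (Finset P)) (i : ℕ), U.card ≤ 2 * t → F.Nonempty →
    (∀ B ∈ F, B.card = i ∧ Disjoint U B ∧ U ∪ B ∈ C) →
    (∀ Z : Finset P, (F.filter fun B => Z ⊆ B).card * k ^ Z.card ≤ F.card) → U ∈ C

/-- The minimal extensions with `b` elements of `U` to a member of `C`. -/
def MnF (C : Finset (Finset P)) (U : Finset P) (b : ℕ) : Finset (Finset P) :=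
  univ.filter fun Y => Y.card = b ∧ Disjoint U Y ∧ U ∪ Y ∈ C ∧ ∀ Z, Z ⊂ Y → U ∪ Z ∉ C

open Classical in
/-- The family of an input variable. -/
noncomputable def famV (PF : Finset P → Prop) (t : ℕ) (z : P) : Finset (Finset P) :=
  univ.filter fun B => PF B ∧ B.card ≤ 2 * t ∧ z ∈ B

open Classical in
/-- The gate `φ` applied to the values of the families `C i` on the input `x`. -/
noncomputable def gv (t : ℕ) {d : ℕ} (φ : BF d) (C : Fin d → Finset (Finset P)) (x : Finset P) : Bool :=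
  φ fun i => decide (AccT t (C i) x)

/-- The input of a circuit given by a set of points. -/
def inp {N : ℕ} (ρ : P ≃ Fin N) (x : Finset P) : Fin N → Bool := fun i => decide (ρ.symm i ∈ x)

end

/-- CLV (short). Clear except `spr`: let `B₀ ∈ F`. If `z ∈ U`: `U ⊆ U ∪ B₀` is `PF`, so `U` is in the family. If `z ∉ U` then `z ∈ B`
for all `B ∈ F` (as `z ∈ U ∪ B`), so the hypothesis for `Z = {z}` says `#F * k ≤ #F`, impossible as `k ≥ 2`, `F ≠ ∅`. -/
def CLV_stmt : Prop :=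
  ∀ (P : Type) [Fintype P] [DecidableEq P] (PF : Finset P → Prop) (k t : ℕ) (z : P),
    (∀ B B' : Finset P, B ⊆ B' → PF B' → PF B) → 2 ≤ k → ClF PF k t (famV PF t z)

/-- MNC (short-medium). From PB.SPF. Suppose `k^b < #(MnF C U b)`. `SPF` (for `j = b`) gives `Y₀`, `#Y₀ < b`. Let
`F = {Y \ Y₀ : Y ∈ MnF C U b, Y₀ ⊆ Y}` (the map is injective on these `Y`), `i = b - #Y₀`. Its members are disjoint from
`U ∪ Y₀`, `(U ∪ Y₀) ∪ (Y \ Y₀) = U ∪ Y ∈ C`. For `Z = ∅` the spread inequality is clear. For `Z ≠ ∅`: the `Y \ Y₀` containing `Z`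
are 0 in number unless `Z` is disjoint from `Y₀` and `#Z ≤ i`; otherwise there are at most `k^(b - #Y₀ - #Z)` of them
(`Y₀ ⊂ Y₀ ∪ Z`), and `k^(b - #Y₀ - #Z) * k^(#Z) = k^(b - #Y₀) < #F`. So `U ∪ Y₀ ∈ C` (`spr`; `#(U ∪ Y₀) ≤ 2t`), but `Y₀ ⊂ Y` for any
`Y` in the family (`#Y₀ < b`): contradiction to the minimality of `Y`. -/
def MNC_stmt : Prop :=
  ∀ (P : Type) [Fintype P] [DecidableEq P] (PF : Finset P → Prop) (k t : ℕ) (C : Finset (Finset P)), ClF PF k t C →
    ∀ (b : ℕ) (U : Finset P), U.card + b ≤ 2 * t → (MnF C U b).card ≤ k ^ b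

/-- EXM (short). Strong induction on `Y`; copy `exists_min` of `Pool/Agent/helper33/Mod/Closed.lean`. -/
def EXM_stmt : Prop :=
  ∀ (P : Type) [Fintype P] [DecidableEq P] (C : Finset (Finset P)) (U Y : Finset P), Disjoint U Y → U ∪ Y ∈ C →
    ∃ Z, Z ⊆ Y ∧ Z ∈ MnF C U Z.card

/-- CDB (short). Sets with at most `j` elements: the images of the maps `Fin j → Option P`. (Or see the count in
`Pool/Agent/helper11/PB/CLO.lean`.) -/
def CDB_stmt : Prop :=
  ∀ (P : Type) [Fintype P] [DecidableEq P] (D : Finset (Finset P)) (j : ℕ), (∀ B ∈ D, B.card ≤ j) →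
    D.card ≤ (Fintype.card P + 1) ^ j

/-- CLE (short-medium). Choose `D` of maximal cardinality with the first two properties (`D = ∅` has them). If `A ∉ D`
violates the third one, `insert A D` has the first two properties: the new `w` counted contain `A`, satisfy `¬ Φ w` and
contain no `B ∈ D`. Compare `exists_closure` in `Pool/Agent/helper33/Mod/Closed.lean`. -/
def CLE_stmt : Prop :=
  ∀ (P Om : Type) [Fintype P] [DecidableEq P] [Fintype Om] (PF : Finset P → Prop) (nu : Om → Finset P) (t M : ℕ)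
    (Φ : Om → Prop), ∃ D : Finset (Finset P), (∀ B ∈ D, PF B ∧ B.card ≤ 2 * t) ∧
      ct (fun w => (∃ B ∈ D, B ⊆ nu w) ∧ ¬ Φ w) * M ≤ D.card * Fintype.card Om ∧
      ∀ A : Finset P, PF A → A.card ≤ 2 * t →
        ct (fun w => A ⊆ nu w ∧ ¬ Φ w ∧ ¬ ∃ B ∈ D, B ⊆ nu w) * M ≤ Fintype.card Om → A ∈ D

/-- CLC (short). `up`: if `B ∈ D`, `B ⊆ B'` the set of the third property for `A = B'` is empty. `spr`: every `B ∈ F` is
`PF` with at most `2t` elements (subset of `U ∪ B ∈ D`), so `hitF` bounds the `w` with no `B ∈ F` in `nu w`; if `U ⊆ nu w` and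
`B ⊆ nu w` then `U ∪ B ∈ D` is contained in `nu w`; so the third property for `A = U` holds (`U` is `PF` as subset of `U ∪ B`). -/
def CLC_stmt : Prop :=
  ∀ (P A Om : Type) [Fintype P] [DecidableEq P] [Fintype A] [Fintype Om] (S : Sys P A Om) (Φ : Om → Prop)
    (D : Finset (Finset P)), (∀ B ∈ D, S.PF B ∧ B.card ≤ 2 * S.t) →
    (∀ B : Finset P, S.PF B → B.card ≤ 2 * S.t →
      ct (fun w => B ⊆ S.nu w ∧ ¬ Φ w ∧ ¬ ∃ B' ∈ D, B' ⊆ S.nu w) * S.M ≤ Fintype.card Om → B ∈ D) →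
    ClF S.PF S.k S.t D

/-- GP1 (short-medium). `R = 4 m k`. Choose `U` with `#U ≤ 2t` such that `#{a ∈ E : U ⊆ g a} * R^(#U)` is maximal. It is at
least the value `#E > 0` for `U = ∅`, so some `a ∈ E` has `U ⊆ g a` and `U` is `PF`. If `t ≤ #U`: `kap ≥ 4 R` (`kp`), so with `pos`:
`#E * 4^t * R^(#U) ≤ #E * (4R)^(#U) ≤ #{a ∈ E : U ⊆ g a} R^(#U) kap^(#U) ≤ R^(#U) #A`; divide by `R^(#U) > 0`. The last property: the
maximality, for `U ∪ Y` (cardinality `#U + #Y`), divided by `R^(#U)`. -/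
def GP1_stmt : Prop :=
  ∀ (P A Om : Type) [Fintype P] [DecidableEq P] [Fintype A] [Fintype Om] (S : Sys P A Om) (E : Finset A),
    E.Nonempty → ∃ U : Finset P, U.card ≤ 2 * S.t ∧ (∃ a ∈ E, U ⊆ S.g a) ∧
      (S.t ≤ U.card → E.card * 4 ^ S.t ≤ Fintype.card A) ∧
      ∀ Y : Finset P, Disjoint U Y → U.card + Y.card ≤ 2 * S.t →
        (E.filter fun a => U ∪ Y ⊆ S.g a).card * (4 * S.m * S.k) ^ Y.card ≤ (E.filter fun a => U ⊆ S.g a).card

/-- GP2 (medium). From MNC. `E_U = {a ∈ E : U ⊆ g a}` is not empty, `R = 4 m k`. Suppose every `a ∈ E_U` contains some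
`Y ∈ MnF (C i) U b`, `i < d`, `1 ≤ b ≤ t`. Then `#E_U ≤ ∑_i ∑_b ∑_Y #{a ∈ E : U ∪ Y ⊆ g a}` and (MNC, hypothesis)
`≤ d ∑_b k^b R^(-b) #E_U ≤ m #E_U ∑_(b ≥ 1) (4m)^(-b) < #E_U` (in real or rational numbers; `∑_(b≥1) (4m)^(-b) = 1/(4m-1) ≤ 1/(3m)`),
a contradiction. -/
def GP2_stmt : Prop :=
  ∀ (P A Om : Type) [Fintype P] [DecidableEq P] [Fintype A] [Fintype Om] (S : Sys P A Om) (E : Finset A)
    (U : Finset P), U.card < S.t → (∃ a ∈ E, U ⊆ S.g a) →
    (∀ Y : Finset P, Disjoint U Y → U.card + Y.card ≤ 2 * S.t →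
      (E.filter fun a => U ∪ Y ⊆ S.g a).card * (4 * S.m * S.k) ^ Y.card ≤ (E.filter fun a => U ⊆ S.g a).card) →
    ∀ (d : ℕ), d ≤ S.m → ∀ C : Fin d → Finset (Finset P), (∀ i, ClF S.PF S.k S.t (C i)) →
      ∃ a ∈ E, U ⊆ S.g a ∧ ∀ (i : Fin d) (b : ℕ), 1 ≤ b → b ≤ S.t → ∀ Y ∈ MnF (C i) U b, ¬ Y ⊆ S.g a

/-- GPE (medium). From GP1, GP2, EXM. The lost positive inputs `E = {a : gv φ C (g a) = 1, not Acc D (g a)}`. If `E = ∅` there is
nothing to show. Take `U` of GP1; if `t ≤ #U` done. Otherwise GP2 gives `a ∈ E`, `U ⊆ g a`. CLAIM: for every `w` with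
`U ⊆ nu w` and every `i`: `Acc (C i) (g a)` implies `Acc (C i) (nu w)`. Let `B ∈ C i`, `#B ≤ t`, `B ⊆ g a`. `U ∪ B ⊆ g a` is `PF` (`gPF`)
with at most `2t` elements, so it is in `C i` (`up`). EXM for `U` and `B \ U`: `Z ⊆ B \ U`, `Z ∈ MnF (C i) U #Z`, `Z ⊆ g a`,
`#Z ≤ t`, so `#Z = 0` by the choice of `a`, so `U ∈ C i`, `#U ≤ t`, `U ⊆ nu w`. As `φ` is monotone `gv φ C (nu w) = 1` for all these `w`,
so the set in the hypothesis on `D` for `B = U` is empty, `U ∈ D` (`U` is `PF`), and `Acc D (g a)` by `U`: contradiction to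
`a ∈ E`. -/
def GPE_stmt : Prop :=
  ∀ (P A Om : Type) [Fintype P] [DecidableEq P] [Fintype A] [Fintype Om] (S : Sys P A Om) (d : ℕ), d ≤ S.m →
    ∀ C : Fin d → Finset (Finset P), (∀ i, ClF S.PF S.k S.t (C i)) → ∀ φ : BF d, Mono φ → ∀ D : Finset (Finset P),
    (∀ B : Finset P, S.PF B → B.card ≤ 2 * S.t →
      ct (fun w => B ⊆ S.nu w ∧ ¬ gv S.t φ C (S.nu w) = true ∧ ¬ ∃ B' ∈ D, B' ⊆ S.nu w) * S.M ≤ Fintype.card Om →
      B ∈ D) →
    ct (fun a => gv S.t φ C (S.g a) = true ∧ ¬ AccT S.t D (S.g a)) * 4 ^ S.t ≤ Fintype.card A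

/-- APM (medium). From CLV, CDB, CLE, CLC, GPE. Induction on the program. A variable (`u = x_j`, `z = ρ.symm j`): `famV PF t z`:
`u (inp x) = 1` means `z ∈ x`; if `z ∈ g a` then `{z}` is `PF` (`gPF`), in the family and has `1 ≤ t` elements; if some member is in
`x` then `z ∈ x`. Step: the gate `φ` (fan-in `d ≤ m`, monotone) applied to available functions `a i` with families `C i`
(choose); `D` of CLE for `Φ w = (gv φ C (nu w) = 1)`; closed by CLC; the new errors: `{a : gv φ C (g a) = 1 and not Acc D (g a)}` (GPE)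
and `{w : some B ∈ D in nu w, not Φ w}`, at most `#D #Om / M`, `#D ≤ (#P+1)^(2t)` (CDB). Outside the errors:
`φ(a(inp g a)) = 1` and `a_i(inp (g a)) = 1` implies `Acc (C i) (g a)`, so `gv φ C (g a) = 1` as `φ` is monotone, so `Acc D (g a)`; in the
same way `Acc D (nu w)` implies `Φ w` and then `φ(a(inp (nu w))) = 1`. Functions of the old program keep their families. -/
def APM_stmt : Prop :=
  ∀ (P A Om : Type) [Fintype P] [DecidableEq P] [Fintype A] [Fintype Om] (S : Sys P A Om) (N : ℕ) (ρ : P ≃ Fin N)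
    (l : List (BF N)), Prog (upTo monG S.m) N l →
    ∃ (E : Finset A) (E' : Finset Om), E.card * 4 ^ S.t ≤ l.length * Fintype.card A ∧
      E'.card * S.M ≤ l.length * ((Fintype.card P + 1) ^ (2 * S.t) * Fintype.card Om) ∧
      ∀ u : BF N, Av l u → ∃ C : Finset (Finset P), ClF S.PF S.k S.t C ∧
        (∀ a, a ∉ E → u (inp ρ (S.g a)) = true → AccT S.t C (S.g a)) ∧
        ∀ w, w ∉ E' → AccT S.t C (S.nu w) → u (inp ρ (S.nu w)) = true

/-- ABS (short-medium). From APM. Let `C` be the family of `u`. If some `B ∈ C` has at most `t` elements: every `w` with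
`B ⊆ nu w` is in `E'` (`Acc C (nu w)` but `u = 0`), so with `hit1`
`#Om * M ≤ #{w : B ⊆ nu w} * lam * M ≤ #E' * M * lam ≤ s (#P+1)^(2t) #Om lam`; divide by `#Om > 0`. If not, `Acc C` never holds,
all `a` are in `E`, `#A * 4^t ≤ s #A`; divide by `#A > 0`. -/
def ABS_stmt : Prop :=
  ∀ (P A Om : Type) [Fintype P] [DecidableEq P] [Fintype A] [Fintype Om] (S : Sys P A Om) (N : ℕ) (ρ : P ≃ Fin N)
    (u : BF N) (s : ℕ), 0 < Fintype.card A → 0 < Fintype.card Om → Size (upTo monG S.m) u s →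
    (∀ a, u (inp ρ (S.g a)) = true) → (∀ w, u (inp ρ (S.nu w)) = false) →
    4 ^ S.t ≤ s ∨ S.M ≤ s * (S.lam * (Fintype.card P + 1) ^ (2 * S.t))

end Pool.Agent.PC
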